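import Pool.Agent.Lib.MP_0775d3_lc.Sl2H.Hmat

/-! Group kernels with values in class functions of `H`. -/

set_option linter.unusedSectionVars false

namespace MP0775d3.Sl2H

open Matrix MP0775d3.Sl2

private theorem hgr_fibre {X H Γ : Type} [Fintype X] [Group H] [Fintype H] [CommGroup Γ]
    (Z : Subgroup Γ) (α : X → Γ) (t : ℝ) (ht : 0 ≤ t)
    (hα : ∀ x₀, (({x | α x * (α x₀)⁻¹ ∈ Z} : Set X).ncard : ℝ) ≤ t) (a : (Γ ⧸ Z) × H) :
    (({p : X × H | (((α p.1 : Γ) : Γ ⧸ Z), p.2) = a} : Set (X × H)).ncard : ℝ) ≤ t := by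
  classical
  by_cases hne : ∃ x₀, ((α x₀ : Γ) : Γ ⧸ Z) = a.1
  · obtain ⟨x₀, hx₀⟩ := hne
    refine le_trans ?_ (hα x₀)
    have h1 : ({p : X × H | (((α p.1 : Γ) : Γ ⧸ Z), p.2) = a} : Set (X × H)) ⊆
        (fun x => (x, a.2)) '' {x | α x * (α x₀)⁻¹ ∈ Z} := by
      rintro ⟨x, u⟩ hx
      rw [Set.mem_ofPred_eq] at hx
      refine ⟨x, ?_, ?_⟩
      · rw [Set.mem_ofPred_eq, mul_comm, ← QuotientGroup.eq, hx₀, ← hx]
      · rw [← hx]
    have h2 := (Set.ncard_le_ncard h1 (Set.toFinite _)).trans (Set.ncard_image_le (Set.toFinite _))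
    exact_mod_cast h2
  · have h1 : ({p : X × H | (((α p.1 : Γ) : Γ ⧸ Z), p.2) = a} : Set (X × H)) = ∅ := by
      ext p
      simp only [Set.mem_ofPred_eq, Set.mem_empty_iff_false, iff_false]
      exact fun hx => hne ⟨p.1, by rw [← hx]⟩
    rw [h1, Set.ncard_empty]
    simpa using ht

/-- The analogue of `group_dec` with values in class functions of `H`. PROOF. `F (e, u) =
h u (out e)` is a class function on `(Γ ⧸ Z) × H` (first factor abelian); its group matrix has the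
bounds of `hyp` for `E = Γ ⧸ Z`; our matrix is the submatrix for `(x, u) ↦ (class of α x, u)`,
`(y, u) ↦ (class of β y, u)`; follow the proof of `group_dec`. -/
theorem hgroup {H : Type} [Group H] [Fintype H] {m ρ τ : ℝ} (hyp : AbBound H m ρ τ) (hρ : 0 ≤ ρ)
    (hτ : 0 ≤ τ) (Γ : Type) [CommGroup Γ] [Finite Γ] (Z : Subgroup Γ) (h : H → Γ → ℂ)
    (hZ : ∀ u, ∀ z ∈ Z, ∀ g, h u (z * g) = h u g) (hc : ∀ u v, h (v * u * v⁻¹) = h u)
    (hm : (Nat.card Γ : ℝ) / (Nat.card Z : ℝ) ≤ m)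
    (X Y : Type) [Fintype X] [Fintype Y] (α : X → Γ) (β : Y → Γ) (t : ℝ) (ht : 0 ≤ t)
    (hα : ∀ x₀, (({x | α x * (α x₀)⁻¹ ∈ Z} : Set X).ncard : ℝ) ≤ t)
    (hβ : ∀ y₀, (({y | β y * (β y₀)⁻¹ ∈ Z} : Set Y).ncard : ℝ) ≤ t) :
    RDec (hmat fun u => Matrix.of fun x y => h u (α x * (β y)⁻¹)) (m * Nat.card H * ρ)
      (t * τ) := by
  classical
  have hfin : Fintype (Γ ⧸ Z) := Fintype.ofFinite _
  set K : (Γ ⧸ Z) × H → ℂ := fun p => h p.2 (Quotient.out p.1) with hK
  have hout : ∀ (u : H) (g : Γ), h u (Quotient.out (g : Γ ⧸ Z)) = h u g := by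
    intro u g
    obtain ⟨z, hz⟩ := QuotientGroup.mk_out_eq_mul Z g
    rw [hz, mul_comm]
    exact hZ u z z.2 g
  have hcls : IsClassFun K := by
    rintro ⟨a, v⟩ ⟨b, u⟩
    simp only [hK]
    have e1 : ((a, v) * (b, u) * (a, v)⁻¹ : (Γ ⧸ Z) × H) = (b, v * u * v⁻¹) := by
      rw [Prod.inv_mk, Prod.mk_mul_mk, Prod.mk_mul_mk, mul_comm a b, mul_inv_cancel_right]
    rw [e1]
    exact congrFun (hc u v) _
  have hZpos : (0 : ℝ) < Nat.card Z := by exact_mod_cast Nat.card_pos
  have hcard : (Nat.card Γ : ℝ) / (Nat.card Z : ℝ) = Nat.card (Γ ⧸ Z) := by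
    rw [Subgroup.card_eq_card_quotient_mul_card_subgroup Z]
    push_cast
    rw [mul_div_cancel_right₀ _ hZpos.ne']
  rw [hcard] at hm
  have hdec := hyp (Γ ⧸ Z) hm K hcls
  have hdec' : RDec (groupMat K) (m * Nat.card H * ρ) τ :=
    hdec.mono (mul_le_mul_of_nonneg_right (mul_le_mul_of_nonneg_right hm (by positivity)) hρ)
      (le_refl _)
  have hsub := hdec'.submatrix hτ ht
    (fun p : X × H => ((((α p.1 : Γ) : Γ ⧸ Z), p.2) : (Γ ⧸ Z) × H))
    (fun p : Y × H => ((((β p.1 : Γ) : Γ ⧸ Z), p.2) : (Γ ⧸ Z) × H))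
    (hgr_fibre Z α t ht hα) (hgr_fibre Z β t ht hβ)
  have heq : (hmat fun u => Matrix.of fun x y => h u (α x * (β y)⁻¹)) =
      (groupMat K).submatrix
        (fun p : X × H => ((((α p.1 : Γ) : Γ ⧸ Z), p.2) : (Γ ⧸ Z) × H))
        (fun p : Y × H => ((((β p.1 : Γ) : Γ ⧸ Z), p.2) : (Γ ⧸ Z) × H)) := by
    ext ⟨x, u⟩ ⟨y, v⟩
    rw [Matrix.submatrix_apply]
    simp only [hmat, groupMat, Matrix.of_apply, hK]
    rw [Prod.inv_mk, Prod.mk_mul_mk, ← QuotientGroup.mk_inv, ← QuotientGroup.mk_mul, hout]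
  rw [heq]
  exact hsub

/-- Bounds do not change under isomorphism. -/
theorem GBound.congr {G G' : Type} [Group G] [Group G'] (e : G ≃* G') {r τ : ℝ}
    (h : GBound G r τ) : GBound G' r τ := by
  classical
  intro _ f hf
  have : Fintype G := Fintype.ofEquiv G' e.symm.toEquiv
  have hcls : IsClassFun (fun g => f (e g)) := by
    intro g x
    simp only [map_mul, map_inv]
    exact hf _ _
  have h1 := h (fun g => f (e g)) hcls
  have hτ : 0 ≤ τ := by
    obtain ⟨R, S, _, _, h3, _⟩ := h1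
    exact le_trans (by positivity) (h3 1)
  have hinj : ∀ x : G, (({x' | e.symm x' = x} : Set G').ncard : ℝ) ≤ 1 := by
    intro x
    have : ({x' | e.symm x' = x} : Set G') = {e x} := by
      ext y
      rw [Set.mem_ofPred_eq, Set.mem_singleton_iff, MulEquiv.symm_apply_eq]
    rw [this, Set.ncard_singleton, Nat.cast_one]
  have h2 := h1.submatrix hτ zero_le_one e.symm e.symm hinj hinj
  rw [one_mul] at h2
  have heq : groupMat f = (groupMat fun g => f (e g)).submatrix e.symm e.symm := by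
    ext x y
    rw [Matrix.submatrix_apply]
    simp only [groupMat, Matrix.of_apply, map_mul, map_inv, MulEquiv.apply_symm_apply]
  rw [heq]
  exact h2

private theorem hgr_rank_add {X Y F : Type*} [Field F] [Fintype X] [Fintype Y]
    (A B : Matrix X Y F) : (A + B).rank ≤ A.rank + B.rank := by
  unfold Matrix.rank
  have h : LinearMap.range (A + B).mulVecLin ≤
      LinearMap.range A.mulVecLin ⊔ LinearMap.range B.mulVecLin := by
    rintro _ ⟨v, rfl⟩
    rw [Matrix.mulVecLin_add, LinearMap.add_apply]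
    exact Submodule.add_mem_sup ⟨v, rfl⟩ ⟨v, rfl⟩
  exact (Submodule.finrank_mono h).trans (Submodule.finrank_add_le_finrank_add_finrank _ _)

private theorem hgr_rank_sum {I X Y F : Type*} [Field F] [Fintype X] [Fintype Y] (s : Finset I)
    (A : I → Matrix X Y F) : (∑ i ∈ s, A i).rank ≤ ∑ i ∈ s, (A i).rank := by
  classical
  induction s using Finset.induction_on with
  | empty => simp
  | insert a s ha ih =>
    rw [Finset.sum_insert ha, Finset.sum_insert ha]
    exact (hgr_rank_add _ _).trans (Nat.add_le_add_left ih _)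

private theorem hgr_rank_block {T H : Type} [Fintype (T × H)] [Fintype H] [DecidableEq T]
    (M : Matrix H H ℂ) (a b : T) :
    (Matrix.of fun p q : T × H => if p.1 = a ∧ q.1 = b then M p.2 q.2 else 0).rank ≤ M.rank := by
  classical
  have e1 : (Matrix.of fun p q : T × H => if p.1 = a ∧ q.1 = b then M p.2 q.2 else 0) =
      (Matrix.of fun (p : T × H) (u : H) => if p.1 = a ∧ p.2 = u then (1 : ℂ) else 0) * M *
      (Matrix.of fun (u : H) (q : T × H) => if q.1 = b ∧ q.2 = u then (1 : ℂ) else 0) := by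
    ext p q
    simp only [Matrix.mul_apply, Matrix.of_apply]
    by_cases hp : p.1 = a <;> by_cases hq : q.1 = b <;> simp [hp, hq]
  rw [e1]
  exact (Matrix.rank_mul_le_left _ _).trans (Matrix.rank_mul_le_right _ _)

/-- A factor treated trivially. PROOF. `groupMat f` is a `|T| × |T|` block matrix with blocks
`groupMat (f (t, ·))`, class functions on `H`: it is the sum over `t ∈ T` of the matrices
`if x.1 * y.1⁻¹ = t then f (t, x.2 * y.2⁻¹) else 0`, each of rank at most `|T| |H| ρ` (`|T|` blocks), and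
its sparse part has at most `τ` entries in each row. -/
theorem peel_small {T H : Type} [Group T] [Finite T] [Group H] [Finite H] {ρ τ : ℝ} (hρ : 0 ≤ ρ)
    (hτ : 0 ≤ τ) (h : GBound H (Nat.card H * ρ) τ) :
    GBound (T × H) ((Nat.card T : ℝ) * Nat.card T * Nat.card H * ρ) (Nat.card T * τ) := by
  classical
  intro _ f hf
  have : Fintype T := Fintype.ofFinite T
  have : Fintype H := Fintype.ofFinite H
  have hcls : ∀ t : T, IsClassFun (fun u : H => f (t, u)) := by
    intro t v u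
    have e1 : ((1, v) * (t, u) * (1, v)⁻¹ : T × H) = (t, v * u * v⁻¹) := by
      rw [Prod.inv_mk, Prod.mk_mul_mk, Prod.mk_mul_mk, one_mul, inv_one, mul_one]
    have := hf (1, v) (t, u)
    rw [e1] at this
    exact this
  choose R S hRS hR hS1 hS2 using fun t : T => h (fun u => f (t, u)) (hcls t)
  refine ⟨Matrix.of fun p q => R (p.1 * q.1⁻¹) p.2 q.2,
    Matrix.of fun p q => S (p.1 * q.1⁻¹) p.2 q.2, ?_, ?_, ?_, ?_⟩
  · ext p q
    have := congrFun (congrFun (hRS (p.1 * q.1⁻¹)) p.2) q.2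
    rw [Matrix.add_apply, Matrix.of_apply, Matrix.of_apply, ← Matrix.add_apply, ← this]
    rfl
  · have e1 : (Matrix.of fun p q : T × H => R (p.1 * q.1⁻¹) p.2 q.2) =
        ∑ c ∈ (Finset.univ : Finset (T × T)), Matrix.of fun p q : T × H =>
          if p.1 = c.1 ∧ q.1 = c.2 then R (c.1 * c.2⁻¹) p.2 q.2 else 0 := by
      ext p q
      rw [Matrix.sum_apply]
      simp only [Matrix.of_apply]
      rw [Finset.sum_eq_single (p.1, q.1)]
      · simp
      · rintro ⟨a, b⟩ _ hne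
        rw [if_neg]
        rintro ⟨h1, h2⟩
        exact hne (by rw [h1, h2])
      · intro hn
        exact absurd (Finset.mem_univ _) hn
    have e2 : ∀ c : T × T, ((Matrix.of fun p q : T × H =>
        if p.1 = c.1 ∧ q.1 = c.2 then R (c.1 * c.2⁻¹) p.2 q.2 else 0).rank : ℝ) ≤
        Nat.card H * ρ := by
      intro c
      refine le_trans ?_ (hR (c.1 * c.2⁻¹))
      exact_mod_cast hgr_rank_block (R (c.1 * c.2⁻¹)) c.1 c.2
    rw [e1]
    refine le_trans (Nat.cast_le.mpr (hgr_rank_sum _ _)) ?_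
    rw [Nat.cast_sum]
    refine le_trans (Finset.sum_le_sum fun c _ => e2 c) ?_
    rw [Finset.sum_const, Finset.card_univ, Fintype.card_prod, nsmul_eq_mul]
    simp only [Nat.card_eq_fintype_card]
    push_cast
    apply le_of_eq
    ring
  · intro p
    have h1 : ({q | (Matrix.of fun p q : T × H => S (p.1 * q.1⁻¹) p.2 q.2) p q ≠ 0} :
        Set (T × H)) ⊆ ⋃ b ∈ (Finset.univ : Finset T), (fun u => (b, u)) '' {u | S (p.1 * b⁻¹) p.2 u ≠ 0} := by
      rintro ⟨b, u⟩ hq
      rw [Set.mem_iUnion₂]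
      exact ⟨b, Finset.mem_univ _, u, hq, rfl⟩
    have h2 : ({q | (Matrix.of fun p q : T × H => S (p.1 * q.1⁻¹) p.2 q.2) p q ≠ 0} :
        Set (T × H)).ncard ≤ ∑ b : T, ({u | S (p.1 * b⁻¹) p.2 u ≠ 0} : Set H).ncard := by
      refine (Set.ncard_le_ncard h1 (Set.toFinite _)).trans ?_
      refine (Finset.set_ncard_biUnion_le _ _).trans ?_
      exact Finset.sum_le_sum fun b _ => Set.ncard_image_le (Set.toFinite _)
    refine le_trans (Nat.cast_le.mpr h2) ?_
    rw [Nat.cast_sum]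
    refine le_trans (Finset.sum_le_sum fun b _ => hS1 _ _) ?_
    rw [Finset.sum_const, Finset.card_univ, nsmul_eq_mul, Nat.card_eq_fintype_card]
  · intro q
    have h1 : ({p | (Matrix.of fun p q : T × H => S (p.1 * q.1⁻¹) p.2 q.2) p q ≠ 0} :
        Set (T × H)) ⊆ ⋃ a ∈ (Finset.univ : Finset T), (fun u => (a, u)) '' {u | S (a * q.1⁻¹) u q.2 ≠ 0} := by
      rintro ⟨a, u⟩ hp
      rw [Set.mem_iUnion₂]
      exact ⟨a, Finset.mem_univ _, u, hp, rfl⟩
    have h2 : ({p | (Matrix.of fun p q : T × H => S (p.1 * q.1⁻¹) p.2 q.2) p q ≠ 0} :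
        Set (T × H)).ncard ≤ ∑ a : T, ({u | S (a * q.1⁻¹) u q.2 ≠ 0} : Set H).ncard := by
      refine (Set.ncard_le_ncard h1 (Set.toFinite _)).trans ?_
      refine (Finset.set_ncard_biUnion_le _ _).trans ?_
      exact Finset.sum_le_sum fun a _ => Set.ncard_image_le (Set.toFinite _)
    refine le_trans (Nat.cast_le.mpr h2) ?_
    rw [Nat.cast_sum]
    refine le_trans (Finset.sum_le_sum fun b _ => hS2 _ _) ?_
    rw [Finset.sum_const, Finset.card_univ, nsmul_eq_mul, Nat.card_eq_fintype_card]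

end MP0775d3.Sl2H
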