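import Pool.Agent.Lib.MP_0775d3_lc.Sl2.Statement
import Pool.Agent.Lib.MP_0775d3_lc.Sl2.GroupDec

/-! Matrices with values in class functions of a second group `H`. -/

set_option linter.unusedSectionVars false

namespace MP0775d3.Sl2H

open Matrix MP0775d3.Sl2

/-- The matrix over `X × H`, `Y × H` of a family of matrices indexed by the group `H`. -/
def hmat {X Y H : Type} [Group H] (A : H → Matrix X Y ℂ) : Matrix (X × H) (Y × H) ℂ :=
  Matrix.of fun p q => A (p.2 * q.2⁻¹) p.1 q.1

open Classical in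
/-- The Kronecker product with the identity matrix of `H`. -/
noncomputable def hone {X Y : Type} (H : Type) (P : Matrix X Y ℂ) : Matrix (X × H) (Y × H) ℂ :=
  Matrix.of fun p q => if p.2 = q.2 then P p.1 q.1 else 0

/-- Rank and sparsity bound for all class functions on `H`. -/
def GBound (H : Type) [Group H] (r τ : ℝ) : Prop :=
  ∀ [Fintype H] (f : H → ℂ), IsClassFun f → RDec (groupMat f) r τ

/-- The same for all products with abelian groups of order at most `m`. -/
def AbBound (H : Type) [Group H] (m ρ τ : ℝ) : Prop :=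
  ∀ (E : Type) [CommGroup E] [Finite E], (Nat.card E : ℝ) ≤ m →
    GBound (E × H) (Nat.card E * Nat.card H * ρ) τ

section
variable {X Y W V H : Type}

private theorem rank_add_le_h [Fintype X] [Fintype Y] (A B : Matrix X Y ℂ) :
    (A + B).rank ≤ A.rank + B.rank := by
  unfold Matrix.rank
  have h : LinearMap.range (A + B).mulVecLin ≤
      LinearMap.range A.mulVecLin ⊔ LinearMap.range B.mulVecLin := by
    rintro _ ⟨v, rfl⟩
    rw [Matrix.mulVecLin_add, LinearMap.add_apply]
    exact Submodule.add_mem_sup ⟨v, rfl⟩ ⟨v, rfl⟩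
  exact (Submodule.finrank_mono h).trans (Submodule.finrank_add_le_finrank_add_finrank _ _)

private theorem rank_sum_le_h [Fintype X] [Fintype Y] (s : Finset H) (A : H → Matrix X Y ℂ) (r : ℕ)
    (h : ∀ u, (A u).rank ≤ r) : (∑ u ∈ s, A u).rank ≤ s.card * r := by
  classical
  induction s using Finset.induction_on with
  | empty => simp
  | insert a s ha ih =>
    rw [Finset.sum_insert ha, Finset.card_insert_of_notMem ha]
    refine (rank_add_le_h _ _).trans ?_
    have := h a
    nlinarith

private theorem hone_mul_apply [Fintype W] [Fintype H] (P : Matrix X W ℂ)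
    (B : Matrix (W × H) Y ℂ) (p : X × H) (q : Y) :
    (hone H P * B) p q = ∑ w, P p.1 w * B (w, p.2) q := by
  classical
  rw [Matrix.mul_apply, Fintype.sum_prod_type]
  refine Finset.sum_congr rfl fun w _ => ?_
  rw [Finset.sum_eq_single p.2]
  · rw [hone, Matrix.of_apply, if_pos rfl]
  · intro h _ hh
    rw [hone, Matrix.of_apply, if_neg (fun hc => hh hc.symm), zero_mul]
  · intro hc
    exact absurd (Finset.mem_univ _) hc

private theorem mul_hone_apply [Fintype V] [Fintype H] (B : Matrix X (V × H) ℂ)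
    (R : Matrix V Y ℂ) (p : X) (q : Y × H) :
    (B * hone H R) p q = ∑ v, B p (v, q.2) * R v q.1 := by
  classical
  rw [Matrix.mul_apply, Fintype.sum_prod_type]
  refine Finset.sum_congr rfl fun v _ => ?_
  rw [Finset.sum_eq_single q.2]
  · rw [hone, Matrix.of_apply, if_pos rfl]
  · intro h _ hh
    rw [hone, Matrix.of_apply, if_neg (fun hc => hh hc), mul_zero]
  · intro hc
    exact absurd (Finset.mem_univ _) hc

private theorem hone_rank [Fintype X] [Fintype Y] [Fintype H] (R : Matrix X Y ℂ) :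
    (hone H R).rank ≤ Fintype.card H * R.rank := by
  classical
  obtain ⟨E, hE⟩ : ∃ E : H → Matrix (X × H) X ℂ,
      E = fun h => Matrix.of fun p x => if p.1 = x ∧ p.2 = h then 1 else 0 := ⟨_, rfl⟩
  obtain ⟨F, hF⟩ : ∃ F : H → Matrix Y (Y × H) ℂ,
      F = fun h => Matrix.of fun y q => if q.1 = y ∧ q.2 = h then 1 else 0 := ⟨_, rfl⟩
  have h1 : ∀ h p q, (E h * R * F h) p q = if p.2 = h ∧ q.2 = h then R p.1 q.1 else 0 := by
    intro h p q
    by_cases hp : p.2 = h
    · by_cases hq : q.2 = h
      · rw [if_pos ⟨hp, hq⟩, Matrix.mul_apply, Finset.sum_eq_single q.1]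
        · rw [Matrix.mul_apply, Finset.sum_eq_single p.1]
          · simp [hE, hF, hp, hq]
          · intro b _ hb
            simp [hE, hb.symm]
          · intro hc
            exact absurd (Finset.mem_univ _) hc
        · intro b _ hb
          simp [hF, hb.symm]
        · intro hc
          exact absurd (Finset.mem_univ _) hc
      · rw [if_neg (fun hc => hq hc.2), Matrix.mul_apply]
        refine Finset.sum_eq_zero fun y _ => ?_
        simp [hF, hq]
    · rw [if_neg (fun hc => hp hc.1), Matrix.mul_assoc, Matrix.mul_apply]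
      refine Finset.sum_eq_zero fun y _ => ?_
      simp [hE, hp]
  have h2 : hone H R = ∑ h : H, E h * R * F h := by
    ext p q
    rw [Matrix.sum_apply]
    simp only [h1]
    rw [hone, Matrix.of_apply]
    by_cases hpq : p.2 = q.2
    · rw [if_pos hpq, Finset.sum_eq_single q.2]
      · rw [if_pos ⟨hpq, rfl⟩]
      · intro b _ hb
        rw [if_neg (fun hc => hb hc.2.symm)]
      · intro hc
        exact absurd (Finset.mem_univ _) hc
    · rw [if_neg hpq]
      refine (Finset.sum_eq_zero fun h _ => ?_).symm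
      rw [if_neg]
      rintro ⟨ha, hb⟩
      exact hpq (ha.trans hb.symm)
  rw [h2]
  refine (rank_sum_le_h _ _ R.rank fun h => ?_).trans (le_of_eq rfl)
  exact (Matrix.rank_mul_le_left _ _).trans (Matrix.rank_mul_le_right _ _)

private theorem ncard_prod_univ_compl [Fintype X] [Fintype H] (P : Set X) :
    ((P ×ˢ (Set.univ : Set H))ᶜ : Set (X × H)).ncard = Nat.card H * (Pᶜ : Set X).ncard := by
  have h1 : ((P ×ˢ (Set.univ : Set H))ᶜ : Set (X × H)) = Pᶜ ×ˢ (Set.univ : Set H) := by
    ext x
    simp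
  rw [h1, Set.ncard_prod, Set.ncard_univ, mul_comm]

end

section
variable {X Y W V H : Type} [Group H]

theorem hmat_add (A B : H → Matrix X Y ℂ) : hmat (fun u => A u + B u) = hmat A + hmat B := by
  ext p q
  rfl

theorem hmat_smul (c : ℂ) (A : H → Matrix X Y ℂ) : hmat (fun u => c • A u) = c • hmat A := by
  ext p q
  rfl

theorem hmat_mul [Fintype W] [Fintype V] [Fintype H] (P : Matrix X W ℂ) (A : H → Matrix W V ℂ)
    (R : Matrix V Y ℂ) : hmat (fun u => P * A u * R) = hone H P * hmat A * hone H R := by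
  ext p q
  rw [mul_hone_apply]
  simp only [hone_mul_apply]
  rw [hmat, Matrix.of_apply, Matrix.mul_apply]
  refine Finset.sum_congr rfl fun v _ => ?_
  rw [Matrix.mul_apply]
  rfl

variable [Fintype X] [Fintype Y] [Fintype H]

/-- PROOF. Block diagonal; `R` and `S` replaced by `hone H R`, `hone H S`; the rank of `hone H R` is at
most `|H| rank R` (write `R = P * Q` through `Fin (rank R)`, `exists_PDQ` in Kron or
`Matrix.rank`-factorisation; or `hone H R` is the sum over `h` of the extensions by zero). -/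
theorem hone_rdec {P : Matrix X Y ℂ} {r s : ℝ} (h : RDec P r s) (hs : 0 ≤ s) :
    RDec (hone H P) (Nat.card H * r) s := by
  classical
  obtain ⟨R, S, rfl, h2, h3, h4⟩ := h
  refine ⟨hone H R, hone H S, ?_, ?_, ?_, ?_⟩
  · ext p q
    rw [Matrix.add_apply, hone, hone, hone, Matrix.of_apply, Matrix.of_apply, Matrix.of_apply]
    by_cases hpq : p.2 = q.2
    · rw [if_pos hpq, if_pos hpq, if_pos hpq, Matrix.add_apply]
    · rw [if_neg hpq, if_neg hpq, if_neg hpq, add_zero]
  · have h5 : ((hone H R).rank : ℝ) ≤ Fintype.card H * R.rank := by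
      exact_mod_cast hone_rank (H := H) R
    rw [Nat.card_eq_fintype_card]
    exact h5.trans (mul_le_mul_of_nonneg_left h2 (Nat.cast_nonneg _))
  · intro p
    refine le_trans ?_ (h3 p.1)
    have h5 : ({q | hone H S p q ≠ 0} : Set (Y × H)) ⊆
        (fun y => (y, p.2)) '' {y | S p.1 y ≠ 0} := by
      intro q hq
      by_cases hpq : p.2 = q.2
      · refine ⟨q.1, ?_, by rw [hpq]⟩
        intro hc
        apply hq
        rw [hone, Matrix.of_apply, if_pos hpq]
        exact hc
      · exact absurd (by rw [hone, Matrix.of_apply, if_neg hpq]) hq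
    have h6 := (Set.ncard_le_ncard h5 (Set.toFinite _)).trans
      (Set.ncard_image_le (Set.toFinite _))
    exact_mod_cast h6
  · intro q
    refine le_trans ?_ (h4 q.1)
    have h5 : ({p | hone H S p q ≠ 0} : Set (X × H)) ⊆
        (fun x => (x, q.2)) '' {x | S x q.1 ≠ 0} := by
      intro p hp
      by_cases hpq : p.2 = q.2
      · refine ⟨p.1, ?_, by rw [← hpq]⟩
        intro hc
        apply hp
        rw [hone, Matrix.of_apply, if_pos hpq]
        exact hc
      · exact absurd (by rw [hone, Matrix.of_apply, if_neg hpq]) hp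
    have h6 := (Set.ncard_le_ncard h5 (Set.toFinite _)).trans
      (Set.ncard_image_le (Set.toFinite _))
    exact_mod_cast h6

/-- PROOF. `hmat (P * A u) = hone H P * hmat A`, then `rdec_factor`. -/
theorem hmat_factor [Fintype W] (P : Matrix X W ℂ) (A : H → Matrix W Y ℂ) :
    RDec (hmat fun u => P * A u) (Fintype.card W * Nat.card H) 0 := by
  have h1 : (hmat fun u => P * A u) = hone H P * hmat A := by
    ext p q
    rw [hone_mul_apply, hmat, Matrix.of_apply, Matrix.mul_apply]
    rfl
  rw [h1]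
  refine (rdec_factor (hone H P) (hmat A)).mono ?_ le_rfl
  rw [Fintype.card_prod, Nat.cast_mul, Nat.card_eq_fintype_card]

/-- PROOF. `RDec.submatrix` for `Prod.map f id`, `Prod.map g id`. -/
theorem hmat_submatrix {X' Y' : Type} [Fintype X'] [Fintype Y'] {A : H → Matrix X Y ℂ} {r s t : ℝ}
    (h : RDec (hmat A) r s) (hs : 0 ≤ s) (ht : 0 ≤ t) (f : X' → X) (g : Y' → Y)
    (hf : ∀ x, (({x' | f x' = x} : Set X').ncard : ℝ) ≤ t)
    (hg : ∀ y, (({y' | g y' = y} : Set Y').ncard : ℝ) ≤ t) :
    RDec (hmat fun u => (A u).submatrix f g) r (t * s) := by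
  have key : ∀ {Z Z' : Type} [Fintype Z'] (k : Z' → Z)
      (_ : ∀ x, (({x' | k x' = x} : Set Z').ncard : ℝ) ≤ t) (p : Z × H),
      (({p' | Prod.map k (id : H → H) p' = p} : Set (Z' × H)).ncard : ℝ) ≤ t := by
    intro Z Z' _ k hk p
    refine le_trans ?_ (hk p.1)
    have h5 : ({p' | Prod.map k (id : H → H) p' = p} : Set (Z' × H)) ⊆
        (fun x => (x, p.2)) '' {x' | k x' = p.1} := by
      intro p' hp'
      have hp'' : Prod.map k (id : H → H) p' = p := hp'
      refine ⟨p'.1, ?_, ?_⟩
      · change k p'.1 = p.1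
        rw [← hp'']
        rfl
      · rw [← hp'']
        rfl
    have h6 := (Set.ncard_le_ncard h5 (Set.toFinite _)).trans
      (Set.ncard_image_le (Set.toFinite _))
    exact_mod_cast h6
  exact h.submatrix hs ht (Prod.map f id) (Prod.map g id) (key f hf) (key g hg)

private theorem sub_aux {A : H → Matrix X Y ℂ} {r s : ℝ} (P : Set X) (Q : Set Y)
    [Fintype P] [Fintype Q] [Fintype (P ×ˢ (Set.univ : Set H) : Set (X × H))]
    [Fintype (Q ×ˢ (Set.univ : Set H) : Set (Y × H))]
    (h : RDec (hmat fun u => (A u).submatrix (Subtype.val : P → X) (Subtype.val : Q → Y)) r s)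
    (hs : 0 ≤ s) :
    RDec ((hmat A).submatrix (Subtype.val : (P ×ˢ (Set.univ : Set H) : Set (X × H)) → X × H)
      (Subtype.val : (Q ×ˢ (Set.univ : Set H) : Set (Y × H)) → Y × H)) r s := by
  have key : ∀ {Z : Type} [Fintype Z] (T : Set Z) [Fintype T]
      [Fintype (T ×ˢ (Set.univ : Set H) : Set (Z × H))] (p : T × H),
      (({p' | (fun z : (T ×ˢ (Set.univ : Set H) : Set (Z × H)) =>
        ((⟨z.1.1, z.2.1⟩ : T), z.1.2)) p' = p} :
        Set (T ×ˢ (Set.univ : Set H) : Set (Z × H))).ncard : ℝ) ≤ 1 := by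
    intro Z _ T _ _ p
    have h5 : ({p' | (fun z : (T ×ˢ (Set.univ : Set H) : Set (Z × H)) =>
        ((⟨z.1.1, z.2.1⟩ : T), z.1.2)) p' = p} :
        Set (T ×ˢ (Set.univ : Set H) : Set (Z × H))).ncard ≤ 1 := by
      rw [Set.ncard_le_one (Set.toFinite _)]
      intro a ha b hb
      have hab := (show _ = p from ha).trans (show _ = p from hb).symm
      rw [Prod.mk.injEq] at hab
      refine Subtype.ext (Prod.ext ?_ hab.2)
      exact congrArg Subtype.val hab.1
    exact_mod_cast h5
  have h1 := h.submatrix hs zero_le_one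
    (fun z : (P ×ˢ (Set.univ : Set H) : Set (X × H)) => ((⟨z.1.1, z.2.1⟩ : P), z.1.2))
    (fun z : (Q ×ˢ (Set.univ : Set H) : Set (Y × H)) => ((⟨z.1.1, z.2.1⟩ : Q), z.1.2))
    (key P) (key Q)
  rw [one_mul] at h1
  exact h1

/-- PROOF. `rdec_cut` for the sets `P ×ˢ univ`, `Q ×ˢ univ`. -/
theorem hmat_cut {A : H → Matrix X Y ℂ} {r s : ℝ} (hs : 0 ≤ s) (P : Set X) (Q : Set Y)
    [Fintype P] [Fintype Q]
    (h : RDec (hmat fun u => (A u).submatrix (Subtype.val : P → X) (Subtype.val : Q → Y)) r s) :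
    RDec (hmat A) (r + Nat.card H * (Pᶜ : Set X).ncard + Nat.card H * (Qᶜ : Set Y).ncard) s := by
  classical
  have h1 := sub_aux P Q h hs
  have h2 := rdec_cut (A := hmat A) hs (P ×ˢ (Set.univ : Set H)) (Q ×ˢ (Set.univ : Set H)) h1
  rw [ncard_prod_univ_compl, ncard_prod_univ_compl] at h2
  push_cast at h2
  exact h2

/-- PROOF. `rdec_support` for the sets `P ×ˢ univ`, `Q ×ˢ univ`. -/
theorem hmat_support {A : H → Matrix X Y ℂ} {r s : ℝ} (hs : 0 ≤ s) (P : Set X) (Q : Set Y)
    [Fintype P] [Fintype Q]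
    (h : RDec (hmat fun u => (A u).submatrix (Subtype.val : P → X) (Subtype.val : Q → Y)) r s)
    (h0 : ∀ u x y, x ∉ P ∨ y ∉ Q → A u x y = 0) : RDec (hmat A) r s := by
  classical
  have h1 := sub_aux P Q h hs
  refine rdec_support (A := hmat A) hs (P ×ˢ (Set.univ : Set H)) (Q ×ˢ (Set.univ : Set H)) h1 ?_
  intro p q hpq
  rw [hmat, Matrix.of_apply]
  apply h0
  rcases hpq with h2 | h2
  · left
    intro hc
    exact h2 ⟨hc, Set.mem_univ _⟩
  · right
    intro hc
    exact h2 ⟨hc, Set.mem_univ _⟩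

/-- PROOF. `RDec.diag`. -/
theorem hmat_diag {A : H → Matrix X Y ℂ} {r s : ℝ} (h : RDec (hmat A) r s) (d : X → ℂ)
    (e : Y → ℂ) : RDec (hmat fun u => Matrix.of fun x y => d x * A u x y * e y) r s :=
  h.diag (fun p => d p.1) (fun q => e q.1)

end

end MP0775d3.Sl2H
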