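import Pool.Agent.Lib.MP_0775d3_lc.Sl2H.PeelScalar
import Pool.Agent.Lib.MP_0775d3_lc.Sl2.KerAlt
import Pool.Agent.Lib.MP_0775d3_lc.Sl2.Group

/-! Peeling off a factor of `SL₂` type. -/

set_option linter.unusedSectionVars false

namespace MP0775d3.Sl2H

open Matrix MP0775d3.Sl2

/-- An abelian first factor. -/
private theorem peel_ab {T : Type} [Group T] [Finite T] (hcomm : ∀ x y : T, x * y = y * x)
    {H : Type} [Group H] {ρ τ : ℝ} (hAb : AbBound H (8 * Nat.card T) ρ τ) :
    GBound (T × H) (Nat.card T * Nat.card H * ρ) τ := by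
  letI : CommGroup T := { (inferInstance : Group T) with mul_comm := hcomm }
  have h0 : (Nat.card T : ℝ) ≤ 8 * Nat.card T := by
    have : (0 : ℝ) ≤ Nat.card T := Nat.cast_nonneg _
    linarith
  intro _ f hf
  exact hAb T h0 f hf

private theorem peel_triv {H : Type} [Group H] {m ρ τ : ℝ} (hm : 1 ≤ m)
    (hAb : AbBound H m ρ τ) : GBound H (Nat.card H * ρ) τ := by
  have h0 : (Nat.card PUnit.{1} : ℝ) ≤ m := by simpa using hm
  have h1 : GBound (PUnit.{1} × H) (Nat.card H * ρ) τ := by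
    intro _ f hf
    have h2 := hAb PUnit.{1} h0 f hf
    simpa using h2
  intro _ f hf
  exact GBound.congr (MulEquiv.uniqueProd : PUnit.{1} × H ≃* H) h1 f hf

/-- The group is a quotient by scalars or abelian. -/
private theorem peel_cases {T : Type} [Group T] [Finite T] (hT : IsSL2Type T)
    (hcard : 256 ≤ Nat.card T) :
    (∃ (k : Type) (_ : Field k) (_ : Fintype k) (_ : DecidableEq k) (N : Subgroup (GL (Fin 2) k))
      (_ : ∀ g : GL (Fin 2) k, Matrix.GeneralLinearGroup.det g = 1 → g ∈ N)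
      (φ : N →* T), Function.Surjective φ ∧ ∀ x : N, φ x = 1 → ∃ c : kˣ,
        (x : GL (Fin 2) k) = Matrix.GeneralLinearGroup.scalar (Fin 2) c) ∨
    (∀ x y : T, x * y = y * x) := by
  classical
  obtain ⟨k, _, _, N, _, ι, φ, hι, hN, hφ⟩ := hT
  letI : Fintype k := Fintype.ofFinite k
  set ι' : N →* GL (Fin 2) k := ι.toHomUnits with hι'
  have hval : ∀ g : N, ((ι' g : GL (Fin 2) k) : Matrix (Fin 2) (Fin 2) k) = ι g := fun g => rfl
  have hinj : Function.Injective ι' := by
    intro a b hab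
    apply hι
    rw [← hval, ← hval, hab]
  let e : N ≃* ι'.range := MonoidHom.ofInjective hinj
  have hN' : ∀ g : GL (Fin 2) k, Matrix.GeneralLinearGroup.det g = 1 → g ∈ ι'.range := by
    intro g hg
    obtain ⟨a, ha⟩ := hN (g : Matrix (Fin 2) (Fin 2) k) (by
      have := congrArg (fun u : kˣ => (u : k)) hg
      simpa using this)
    exact ⟨a, Units.ext ((hval a).trans ha)⟩
  set ψ : ι'.range →* T := φ.comp e.symm.toMonoidHom with hψ
  have hsurj : Function.Surjective ψ := by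
    intro y
    obtain ⟨x, rfl⟩ := hφ y
    exact ⟨e x, by simp [hψ]⟩
  have hcardGL : Nat.card (GL (Fin 2) k) ≤ Fintype.card k ^ 4 := by
    have h3 : Nat.card (GL (Fin 2) k) ≤ Nat.card (Matrix (Fin 2) (Fin 2) k) :=
      Nat.card_le_card_of_injective (fun g : GL (Fin 2) k => (g : Matrix (Fin 2) (Fin 2) k))
        Units.val_injective
    have h4 : Nat.card (Matrix (Fin 2) (Fin 2) k) = Fintype.card k ^ 4 := by
      rw [Nat.card_eq_fintype_card]
      show Fintype.card (Fin 2 → Fin 2 → k) = _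
      rw [Fintype.card_fun, Fintype.card_fun, Fintype.card_fin, ← pow_mul]
    rwa [h4] at h3
  have hGk : Nat.card T ≤ Fintype.card k ^ 4 := by
    have h5 : Nat.card T ≤ Nat.card ι'.range := Nat.card_le_card_of_surjective ψ hsurj
    have h6 : Nat.card ι'.range ≤ Nat.card (GL (Fin 2) k) :=
      Nat.card_le_card_of_injective _ Subtype.val_injective
    exact h5.trans (h6.trans hcardGL)
  have hq : 4 ≤ Fintype.card k := by
    by_contra hcon
    have h5 : Fintype.card k ≤ 3 := by omega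
    have h6 : Fintype.card k ^ 4 ≤ 3 ^ 4 := Nat.pow_le_pow_left h5 4
    omega
  rcases ker_scalar_or hq ι'.range hN' ψ with h | h
  · left
    exact ⟨k, inferInstance, inferInstance, inferInstance, ι'.range, hN', ψ, hsurj, h⟩
  · right
    intro x y
    obtain ⟨x', rfl⟩ := hsurj x
    obtain ⟨y', rfl⟩ := hsurj y
    have h5 : ψ (x' * y' * x'⁻¹ * y'⁻¹) = 1 := by
      apply h
      rw [Subgroup.coe_mul, Subgroup.coe_mul, Subgroup.coe_mul, Subgroup.coe_inv,
        Subgroup.coe_inv, map_mul, map_mul, map_mul, map_inv, map_inv]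
      rw [mul_comm (Matrix.GeneralLinearGroup.det (x' : GL (Fin 2) k)), mul_inv_cancel_right,
        mul_inv_cancel]
    rw [map_mul, map_mul, map_mul, map_inv, map_inv] at h5
    exact mul_inv_eq_iff_eq_mul.mp (mul_inv_eq_one.mp h5)

/-- PROOF. Three cases as in `Sl2/Group.lean` and `Sl2/Statement.lean`. `|T| < 256`: `peel_small`
(`GBound H` from `AbBound` for the trivial group and `GBound.congr`), `C ≥ 256`. `|T| ≥ 256`: `q ≥ 4`;
by `ker_scalar_or` either `peel_scalar` applies or `T` is abelian, and then `AbBound` for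
`E = T`. -/
theorem peel (δ : ℝ) (hδ : 0 < δ) (hδ1 : δ ≤ 1) : ∃ γ : ℝ, 0 < γ ∧ γ ≤ 1 ∧ ∃ C : ℝ, 1 ≤ C ∧
    ∀ (T : Type) [Group T] [Finite T] (_ : IsSL2Type T) (H : Type) [Group H] [Finite H]
      (ρ τ : ℝ) (_ : 0 ≤ ρ) (_ : 0 ≤ τ) (_ : AbBound H (8 * Nat.card T) ρ τ),
      GBound (T × H) (C * (Nat.card T * Nat.card H * ((Nat.card T : ℝ) ^ (-γ) + ρ)))
        (C * ((Nat.card T : ℝ) ^ δ * τ)) := by
  obtain ⟨γ, hγ, hγ1, C, hC, h⟩ := peel_scalar δ hδ hδ1
  refine ⟨γ, hγ, hγ1, max C 256, le_max_of_le_left hC, ?_⟩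
  intro T _ _ hT H _ _ ρ τ hρ hτ hAb
  have hT1 : (1 : ℝ) ≤ Nat.card T := by
    have : 1 ≤ Nat.card T := Nat.card_pos
    exact_mod_cast this
  have hH0 : (0 : ℝ) ≤ Nat.card H := Nat.cast_nonneg _
  have hp0 : (0 : ℝ) ≤ (Nat.card T : ℝ) ^ (-γ) := Real.rpow_nonneg (by linarith) _
  have hp1 : (1 : ℝ) ≤ (Nat.card T : ℝ) ^ δ := Real.one_le_rpow hT1 hδ.le
  have hM0 : (0 : ℝ) ≤ Nat.card T * Nat.card H := by positivity
  have hM1 : (0 : ℝ) ≤ Nat.card T * Nat.card H * ((Nat.card T : ℝ) ^ (-γ) + ρ) := by positivity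
  have hM2 : (Nat.card T * Nat.card H * ρ : ℝ) ≤
      Nat.card T * Nat.card H * ((Nat.card T : ℝ) ^ (-γ) + ρ) :=
    mul_le_mul_of_nonneg_left (by linarith) hM0
  have hS : τ ≤ (Nat.card T : ℝ) ^ δ * τ := le_mul_of_one_le_left hτ hp1
  have hS0 : (0 : ℝ) ≤ (Nat.card T : ℝ) ^ δ * τ := hτ.trans hS
  have hC1 : (1 : ℝ) ≤ max C 256 := le_max_of_le_left hC
  rcases lt_or_ge (Nat.card T) 256 with hlt | hge
  · have hT2 : (Nat.card T : ℝ) ≤ max C 256 := by
      refine le_trans ?_ (le_max_right C 256)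
      exact_mod_cast hlt.le
    have h0 : GBound H (Nat.card H * ρ) τ := peel_triv (by linarith) hAb
    have h1 : GBound (T × H) ((Nat.card T : ℝ) * Nat.card T * Nat.card H * ρ)
        (Nat.card T * τ) := by
      intro _ f hf
      exact peel_small hρ hτ h0 f hf
    intro _ f hf
    refine (h1 f hf).mono ?_ ?_
    · calc (Nat.card T : ℝ) * Nat.card T * Nat.card H * ρ
          = Nat.card T * (Nat.card T * Nat.card H * ρ) := by ring
        _ ≤ max C 256 * (Nat.card T * Nat.card H * ((Nat.card T : ℝ) ^ (-γ) + ρ)) :=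
          mul_le_mul hT2 hM2 (by positivity) (by linarith)
    · exact mul_le_mul hT2 hS hτ (by linarith)
  · rcases peel_cases hT hge with hcase | hcomm
    · obtain ⟨k, _, _, _, N, hN, φ, hφ, hk⟩ := hcase
      have h1 : GBound (T × H) (C * (Nat.card T * Nat.card H * ((Nat.card T : ℝ) ^ (-γ) + ρ)))
          (C * ((Nat.card T : ℝ) ^ δ * τ)) := by
        intro _ f hf
        exact h k N hN T φ hφ hk H ρ τ hρ hτ hAb f hf
      intro _ f hf
      refine (h1 f hf).mono ?_ ?_
      · exact mul_le_mul_of_nonneg_right (le_max_left _ _) hM1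
      · exact mul_le_mul_of_nonneg_right (le_max_left _ _) hS0
    · have h1 : GBound (T × H) (Nat.card T * Nat.card H * ρ) τ := by
        intro _ f hf
        exact peel_ab hcomm hAb f hf
      intro _ f hf
      refine (h1 f hf).mono ?_ ?_
      · exact hM2.trans (le_mul_of_one_le_left hM1 hC1)
      · exact hS.trans (le_mul_of_one_le_left hS0 hC1)

end MP0775d3.Sl2H
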