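import Pool.Agent.Lib.MP_0775d3_lc.Sl2H.HGroup
import Pool.Agent.Lib.MP_0775d3_lc.Sl2.Special

/-! The scalar kernel with values in class functions of `H`. -/

set_option linter.unusedSectionVars false

namespace MP0775d3.Sl2H

open Matrix MP0775d3.Sl2

section
variable {k : Type} [Field k] [Fintype k] [DecidableEq k] {H : Type} [Group H] [Fintype H]
  {ρ τ : ℝ}

/-- PROOF. As `kerSc_dec` in `Sl2/Special.lean`, with `hgroup`. -/
theorem kerSc_h (S : Setup k) (hyp : AbBound H (4 * S.B) ρ τ) (hρ : 0 ≤ ρ) (hτ : 0 ≤ τ)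
    (σ : H → kˣ → ℂ) (hσ : ∀ u, ∀ c ∈ S.Z, ∀ d, σ u (c * d) = σ u d)
    (hc : ∀ u v, σ (v * u * v⁻¹) = σ u) :
    RDec (hmat fun u => kerSc S (σ u)) (4 * S.B * Nat.card H * ρ) (2 * τ) := by
  have h := hgroup hyp hρ hτ (ScG S) (scHom S).range (fun u => scFn S (σ u))
    (fun u z hz g => scFn_inv S (σ u) (hσ u) z hz g) (fun u v => by rw [hc]) (sc_card S)
    (Cell S) (Cell S) (scCo S) (scCo S) 2 (by norm_num) (scCo_fibre S) (scCo_fibre S)
  have e : ∀ u, (Matrix.of fun x y => scFn S (σ u) (scCo S x * (scCo S y)⁻¹)) = kerSc S (σ u) := by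
    intro u
    ext x y
    rw [Matrix.of_apply, scFn_eq]
  simp only [e] at h
  exact h

end

end MP0775d3.Sl2H
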