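import Pool.Agent.Lib.MP_0775d3_lc.Sl2H.HGroup
import Pool.Agent.Lib.MP_0775d3_lc.Sl2.Sign

/-! The unipotent kernel with values in class functions of `H`. -/

set_option linter.unusedSectionVars false

namespace MP0775d3.Sl2H

open Matrix MP0775d3.Sl2

section
variable {k : Type} [Field k] [Fintype k] [DecidableEq k] {H : Type} [Group H] [Fintype H]
  {ρ τ : ℝ}

/-- One lift. -/
private theorem term_h (S : Setup k) (hyp : AbBound H (4 * S.B) ρ τ) (hρ : 0 ≤ ρ)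
    (hτ : 0 ≤ τ) (β : H → kˣ → ℂ) (hβ : ∀ u, ∀ c ∈ S.Z, ∀ d, β u (c * d) = β u d)
    (hc : ∀ u v, β (v * u * v⁻¹) = β u) (d ε : kˣ) (hε : ε ^ 2 = 1)
    (s : kˣ → kˣ) (hs : ∀ x ∈ clsP S d, x.2.2.2.1 = d * s x.2.2.2.1 ^ 2) :
    RDec (hmat fun u => termM S (β u) d s ε) (4 * S.B * Nat.card H * ρ) τ := by
  classical
  have hq0 : (0 : ℝ) < Fintype.card k := lt_of_lt_of_le two_pos two_le_q
  have hB0 : 0 ≤ S.B := le_trans (by positivity) (B_lower S)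
  refine hmat_support hτ (clsP S d) (clsP S d) ?_ ?_
  swap
  · intro u x y hxy
    rw [termM, Matrix.of_apply, if_neg]
    tauto
  by_cases hemp : (clsP S d).Nonempty
  swap
  · have : IsEmpty (clsP S d) := by
      rw [Set.not_nonempty_iff_eq_empty] at hemp
      rw [hemp]
      infer_instance
    have h0 : (hmat fun u => (termM S (β u) d s ε).submatrix (Subtype.val : clsP S d → Cell S)
        (Subtype.val : clsP S d → Cell S)) = 0 := by
      ext x y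
      exact this.elim x.1
    rw [h0]
    exact rdec_zero.mono (by positivity) hτ
  obtain ⟨x₀, hx₀⟩ := hemp
  set s₀ : kˣ := s x₀.2.2.2.1 with hs₀
  set H₂ : Subgroup kˣ := S.H.comap (powMonoidHom 2 : kˣ →* kˣ) with hH₂
  have hZH : S.Z ≤ H₂ := fun c hc => S.sq_mem c hc
  have hmem : ∀ (e : kˣ), e ^ 2 = 1 → ∀ x : clsP S d, e * s x.1.2.2.2.1 / s₀ ∈ H₂ := by
    intro e he x
    rw [hH₂, Subgroup.mem_comap, powMonoidHom_apply, div_pow, mul_pow, he, one_mul]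
    have h1 : s x.1.2.2.2.1 ^ 2 / s₀ ^ 2 = x.1.2.2.2.1 / x₀.2.2.2.1 := by
      conv_rhs => rw [hs x.1 x.2, hs x₀ hx₀]
      rw [← hs₀]
      exact (mul_div_mul_left_eq_div _ _ _).symm
    rw [h1]
    exact S.H.div_mem (S.T_sub _ x.1.2.2.2.2) (S.T_sub _ x₀.2.2.2.2)
  let Γ := Multiplicative (k × k × k) × H₂
  let Z₂ : Subgroup Γ := (⊥ : Subgroup (Multiplicative (k × k × k))).prod (S.Z.subgroupOf H₂)
  let h : H → Γ → ℂ := fun u g =>
    if (Multiplicative.toAdd g.1).1 * (Multiplicative.toAdd g.1).2.1 =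
        (d : k) * (Multiplicative.toAdd g.1).2.2 ^ 2 then
      β u (g.2 : kˣ) * (quadraticChar k (if (Multiplicative.toAdd g.1).2.1 = 0 then
        -(Multiplicative.toAdd g.1).1 else -(d * (Multiplicative.toAdd g.1).2.1)) : ℤ) else 0
  let α : ∀ e : kˣ, e ^ 2 = 1 → clsP S d → Γ := fun e he x =>
    (Multiplicative.ofAdd (x.1.1, x.1.2.1, ((e * s x.1.2.2.2.1 * x.1.2.2.1 : kˣ) : k)),
      ⟨e * s x.1.2.2.2.1 / s₀, hmem e he x⟩)
  have hh : ∀ u, ∀ z ∈ Z₂, ∀ g, h u (z * g) = h u g := by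
    intro u z hz g
    obtain ⟨hz1, hz2⟩ := Subgroup.mem_prod.mp hz
    rw [Subgroup.mem_bot] at hz1
    rw [Subgroup.mem_subgroupOf] at hz2
    simp only [h]
    have e1 : (z * g).1 = g.1 := by rw [Prod.fst_mul, hz1, one_mul]
    have e2 : (((z * g).2 : H₂) : kˣ) = (z.2 : kˣ) * (g.2 : kˣ) := rfl
    rw [e1, e2, hβ u _ hz2]
  have hhc : ∀ u v, h (v * u * v⁻¹) = h u := by
    intro u v
    funext g
    simp only [h]
    rw [hc u v]
  have hfib : ∀ (e : kˣ) (he : e ^ 2 = 1) (x₁ : clsP S d),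
      (({x | α e he x * (α e he x₁)⁻¹ ∈ Z₂} : Set (clsP S d)).ncard : ℝ) ≤ 1 := by
    intro e he x₁
    have : ({x | α e he x * (α e he x₁)⁻¹ ∈ Z₂} : Set (clsP S d)).ncard ≤ 1 := by
      rw [Set.ncard_le_one (Set.toFinite _)]
      have key : ∀ x : clsP S d, α e he x * (α e he x₁)⁻¹ ∈ Z₂ → x = x₁ := by
        intro x hx
        obtain ⟨h1, h2⟩ := Subgroup.mem_prod.mp hx
        rw [Subgroup.mem_bot] at h1
        rw [Subgroup.mem_subgroupOf] at h2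
        have h3 : (x.1.1, x.1.2.1, ((e * s x.1.2.2.2.1 * x.1.2.2.1 : kˣ) : k)) =
            (x₁.1.1, x₁.1.2.1, ((e * s x₁.1.2.2.2.1 * x₁.1.2.2.1 : kˣ) : k)) := by
          have h4 := mul_inv_eq_one.mp h1
          exact Multiplicative.ofAdd.injective h4
        simp only [Prod.mk.injEq] at h3
        obtain ⟨h5, h6, h7⟩ := h3
        have h8 : s x.1.2.2.2.1 / s x₁.1.2.2.2.1 ∈ S.Z := by
          have h9 : ((α e he x * (α e he x₁)⁻¹).2 : kˣ) =
              (e * s x.1.2.2.2.1 / s₀) * (e * s x₁.1.2.2.2.1 / s₀)⁻¹ := rfl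
          rw [h9] at h2
          have h10 : (e * s x.1.2.2.2.1 / s₀) * (e * s x₁.1.2.2.2.1 / s₀)⁻¹ =
              s x.1.2.2.2.1 / s x₁.1.2.2.2.1 := by
            rw [← div_eq_mul_inv, div_div_div_cancel_right, mul_div_mul_left_eq_div]
          rwa [h10] at h2
        have h11 : x.1.2.2.2.1 = x₁.1.2.2.2.1 := by
          refine S.T_inj _ x.1.2.2.2.2 _ x₁.1.2.2.2.2 _ h8 ?_
          have e1 := hs x.1 x.2
          have e2 := hs x₁.1 x₁.2
          calc x.1.2.2.2.1 = d * s x.1.2.2.2.1 ^ 2 := e1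
            _ = (s x.1.2.2.2.1 / s x₁.1.2.2.2.1) ^ 2 * (d * s x₁.1.2.2.2.1 ^ 2) := by
              rw [div_pow, mul_left_comm, div_mul_cancel]
            _ = (s x.1.2.2.2.1 / s x₁.1.2.2.2.1) ^ 2 * x₁.1.2.2.2.1 := by rw [← e2]
        have h12 : x.1.2.2.1 = x₁.1.2.2.1 := by
          have h13 : e * s x.1.2.2.2.1 * x.1.2.2.1 = e * s x₁.1.2.2.2.1 * x₁.1.2.2.1 :=
            Units.ext h7
          rw [h11] at h13
          exact mul_left_cancel h13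
        apply Subtype.ext
        exact Prod.ext h5 (Prod.ext h6 (Prod.ext h12 (Subtype.ext h11)))
      intro x hx y hy
      rw [key x hx, key y hy]
    exact_mod_cast this
  have hcard : ((Nat.card Γ : ℝ) / (Nat.card Z₂ : ℝ)) ≤ 4 * S.B := by
    have hZ2 : Nat.card Z₂ = Nat.card S.Z := by
      have e1 := Nat.card_congr (Subgroup.prodEquiv (⊥ : Subgroup (Multiplicative (k × k × k)))
        (S.Z.subgroupOf H₂)).toEquiv
      rw [Nat.card_prod, Subgroup.card_bot, one_mul,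
        Nat.card_congr (Subgroup.subgroupOfEquivOfLe hZH).toEquiv] at e1
      exact e1
    have hΓ : Nat.card Γ = Fintype.card k ^ 3 * Nat.card H₂ := by
      show Nat.card (Multiplicative (k × k × k) × H₂) = _
      rw [Nat.card_prod]
      congr 1
      rw [Nat.card_congr Multiplicative.toAdd, Nat.card_prod, Nat.card_prod,
        Nat.card_eq_fintype_card]
      ring
    rw [hZ2, hΓ]
    have h1 := card_sqH S.H
    rw [← hH₂] at h1
    have hZpos : (0 : ℝ) < Nat.card S.Z := by exact_mod_cast Nat.card_pos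
    rw [Setup.B, Setup.m, ← mul_div_assoc, ← mul_div_assoc]
    refine div_le_div_of_nonneg_right ?_ hZpos.le
    push_cast
    have h2 : (Fintype.card k : ℝ) ^ 3 * (Nat.card H₂ : ℝ) ≤
        (Fintype.card k : ℝ) ^ 3 * (2 * (Nat.card S.H : ℝ)) :=
      mul_le_mul_of_nonneg_left h1 (by positivity)
    have h3 : (0 : ℝ) ≤ (Fintype.card k : ℝ) ^ 3 * (Nat.card S.H : ℝ) := by positivity
    linarith
  have main := hgroup hyp hρ hτ Γ Z₂ h hh hhc hcard (clsP S d) (clsP S d) (α ε hε)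
    (α 1 (one_pow 2)) 1 zero_le_one (hfib ε hε) (hfib 1 (one_pow 2))
  rw [one_mul] at main
  have main2 := hmat_diag main (fun x => (quadraticChar k
      ((ε * s x.1.2.2.2.1 * x.1.2.2.1 : kˣ) : k) : ℂ))
    (fun y => (quadraticChar k ((s y.1.2.2.2.1 * y.1.2.2.1 : kˣ) : k) : ℂ))
  refine Eq.subst (motive := fun M => RDec M _ _) ?_ main2
  congr 1
  funext u
  ext x y
  rw [Matrix.of_apply, Matrix.of_apply, Matrix.submatrix_apply, termM, Matrix.of_apply,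
    if_pos ⟨x.2, y.2⟩]
  have e1 : (α ε hε x * (α 1 (one_pow 2) y)⁻¹).1 = Multiplicative.ofAdd
      (x.1.1 - y.1.1, x.1.2.1 - y.1.2.1, ((ε * s x.1.2.2.2.1 * x.1.2.2.1 : kˣ) : k) -
        ((1 * s y.1.2.2.2.1 * y.1.2.2.1 : kˣ) : k)) := by
    show Multiplicative.ofAdd _ * (Multiplicative.ofAdd _)⁻¹ = _
    rw [← ofAdd_neg, ← ofAdd_add]
    refine congrArg Multiplicative.ofAdd ?_
    rw [← sub_eq_add_neg]
    rfl
  have e2 : (((α ε hε x * (α 1 (one_pow 2) y)⁻¹).2 : H₂) : kˣ) =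
      ε * s x.1.2.2.2.1 / s y.1.2.2.2.1 := by
    show (ε * s x.1.2.2.2.1 / s₀) * (1 * s y.1.2.2.2.1 / s₀)⁻¹ = _
    rw [← div_eq_mul_inv, div_div_div_cancel_right, one_mul]
  simp only [h]
  rw [e1, e2]
  simp only [toAdd_ofAdd, one_mul]
  split_ifs <;> simp

private theorem kerSg_eq_all (hk : ringChar k ≠ 2) (S : Setup k) :
    ∃ (ν : kˣ) (s₁ s₂ : kˣ → kˣ), (∀ x ∈ clsP S 1, x.2.2.2.1 = 1 * s₁ x.2.2.2.1 ^ 2) ∧
      (∀ x ∈ clsP S ν, x.2.2.2.1 = ν * s₂ x.2.2.2.1 ^ 2) ∧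
      ∀ β : kˣ → ℂ, kerSg S β = (termM S β 1 s₁ 1 + termM S β 1 s₁ (-1)) +
        (termM S β ν s₂ 1 + termM S β ν s₂ (-1)) := by
  classical
  obtain ⟨ν, h1, h2⟩ := exists_classes (k := k) hk
  have hch : ∀ d : kˣ, ∃ s : kˣ → kˣ, ∀ D, (∃ s' : kˣ, D = d * s' ^ 2) → D = d * s D ^ 2 := by
    intro d
    have : ∀ D : kˣ, ∃ s : kˣ, (∃ s' : kˣ, D = d * s' ^ 2) → D = d * s ^ 2 := by
      intro D
      by_cases h : ∃ s' : kˣ, D = d * s' ^ 2
      · obtain ⟨s, hs⟩ := h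
        exact ⟨s, fun _ => hs⟩
      · exact ⟨1, fun h' => absurd h' h⟩
    choose s hs using this
    exact ⟨s, hs⟩
  obtain ⟨s₁, hs₁⟩ := hch 1
  obtain ⟨s₂, hs₂⟩ := hch ν
  refine ⟨ν, s₁, s₂, fun x hx => hs₁ _ hx, fun x hx => hs₂ _ hx, fun β => ?_⟩
  have hzero : ∀ (d ε : kˣ) (s : kˣ → kˣ) (x y : Cell S), ¬ (x ∈ clsP S d ∧ y ∈ clsP S d) →
      termM S β d s ε x y = 0 := by
    intro d ε s x y h
    rw [termM, Matrix.of_apply, if_neg h]
  ext x y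
  rw [Matrix.add_apply, Matrix.add_apply, Matrix.add_apply]
  by_cases hc1 : x ∈ clsP S 1 ∧ y ∈ clsP S 1
  · rw [kerSg_same hk S β 1 s₁ x y (hs₁ _ hc1.1) (hs₁ _ hc1.2)]
    have h3 : ¬ (x ∈ clsP S ν ∧ y ∈ clsP S ν) := fun h => h2 _ ⟨hc1.1, h.1⟩
    rw [hzero ν 1 s₂ x y h3, hzero ν (-1) s₂ x y h3, add_zero, add_zero]
  · by_cases hc2 : x ∈ clsP S ν ∧ y ∈ clsP S ν
    · rw [kerSg_same hk S β ν s₂ x y (hs₂ _ hc2.1) (hs₂ _ hc2.2)]
      rw [hzero 1 1 s₁ x y hc1, hzero 1 (-1) s₁ x y hc1, add_zero, zero_add]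
    · rw [hzero 1 1 s₁ x y hc1, hzero 1 (-1) s₁ x y hc1, hzero ν 1 s₂ x y hc2,
        hzero ν (-1) s₂ x y hc2, add_zero, add_zero]
      rw [kerSg, Matrix.of_apply]
      refine Finset.sum_eq_zero ?_
      intro c _
      rw [if_neg]
      rintro ⟨h3, -⟩
      rcases h1 y.2.2.2.1 with ⟨t, ht⟩ | ⟨t, ht⟩
      · exact hc1 ⟨⟨c * t, by rw [h3, ht, mul_pow]; exact mul_left_comm _ _ _⟩, ⟨t, ht⟩⟩
      · exact hc2 ⟨⟨c * t, by rw [h3, ht, mul_pow]; exact mul_left_comm _ _ _⟩, ⟨t, ht⟩⟩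

/-- PROOF. As `kerSg_dec` and `term_dec` in `Sl2/Sign.lean`, with `hgroup`. In `kerSg_eq` the data
`ν, s₁, s₂` depend on `β`; redo it with `ν, s₁, s₂` chosen before `β` (they come from
`exists_classes`; the proof does not change). -/
theorem kerSg_h (hk : ringChar k ≠ 2) (S : Setup k) (hyp : AbBound H (4 * S.B) ρ τ) (hρ : 0 ≤ ρ)
    (hτ : 0 ≤ τ) (β : H → kˣ → ℂ) (hβ : ∀ u, ∀ c ∈ S.Z, ∀ d, β u (c * d) = β u d)
    (hc : ∀ u v, β (v * u * v⁻¹) = β u) :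
    RDec (hmat fun u => kerSg S (β u)) (16 * S.B * Nat.card H * ρ) (4 * τ) := by
  obtain ⟨ν, s₁, s₂, h1, h2, h3⟩ := kerSg_eq_all hk S
  have t1 := term_h S hyp hρ hτ β hβ hc 1 1 (one_pow 2) s₁ h1
  have t2 := term_h S hyp hρ hτ β hβ hc 1 (-1) (neg_one_sq) s₁ h1
  have t3 := term_h S hyp hρ hτ β hβ hc ν 1 (one_pow 2) s₂ h2
  have t4 := term_h S hyp hρ hτ β hβ hc ν (-1) (neg_one_sq) s₂ h2
  have h4 : (hmat fun u => kerSg S (β u)) =
      ((hmat fun u => termM S (β u) 1 s₁ 1) + hmat fun u => termM S (β u) 1 s₁ (-1)) +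
        ((hmat fun u => termM S (β u) ν s₂ 1) + hmat fun u => termM S (β u) ν s₂ (-1)) := by
    rw [← hmat_add, ← hmat_add, ← hmat_add]
    congr 1
    funext u
    exact h3 (β u)
  rw [h4]
  exact ((t1.add t2).add (t3.add t4)).mono (le_of_eq (by ring)) (le_of_eq (by ring))

end

end MP0775d3.Sl2H
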