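import Pool.Agent.Lib.MP_0775d3_lc.Sl2H.KerPhiH
import Pool.Agent.Lib.MP_0775d3_lc.Sl2H.KerScH
import Pool.Agent.Lib.MP_0775d3_lc.Sl2H.KerSgH
import Pool.Agent.Lib.MP_0775d3_lc.Sl2.CellEq

/-! The big cell with values in class functions of `H`. -/

set_option linter.unusedSectionVars false

namespace MP0775d3.Sl2H

open Matrix MP0775d3.Sl2

/-- PROOF. For each `u` `cell_eq` gives `Φ, β, σ`; choose them as functions of the function `f u`
(not of `u`), so that they are the same for `u` and `v u v⁻¹`. `kerPhi_h`, `kerSg_h` (zero in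
characteristic 2: `β = 0`), `kerSc_h`, `hmat_add`. Note `τ ≤ q ^ δ τ`. -/
theorem cell_h (δ : ℝ) (hδ : 0 < δ) (hδ1 : δ ≤ 1) : ∃ γ : ℝ, 0 < γ ∧ γ ≤ 1 ∧ ∃ C : ℝ, 1 ≤ C ∧
    ∀ (k : Type) [Field k] [Fintype k] [DecidableEq k] (H : Type) [Group H] [Fintype H]
      (S : Setup k) (ρ τ : ℝ) (_ : 0 ≤ ρ) (_ : 0 ≤ τ) (_ : AbBound H (4 * S.B) ρ τ)
      (f : H → GL (Fin 2) k → ℂ)
      (_ : ∀ u, ∀ p g : GL (Fin 2) k, Matrix.GeneralLinearGroup.det p = 1 →
        f u (p * g * p⁻¹) = f u g)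
      (_ : ∀ u, ∀ c ∈ S.Z, ∀ g, f u (Matrix.GeneralLinearGroup.scalar (Fin 2) c * g) = f u g)
      (_ : ∀ u v, f (v * u * v⁻¹) = f u),
      RDec (hmat fun u => Matrix.of fun x y : Cell S => f u (cellMat S x * (cellMat S y)⁻¹))
        (C * (S.B * Nat.card H * ((Fintype.card k : ℝ) ^ (-γ) + ρ)))
        (C * ((Fintype.card k : ℝ) ^ δ * τ)) := by
  obtain ⟨γ, hγ, hγ1, C, hC, hP⟩ := kerPhi_h δ hδ hδ1
  refine ⟨γ, hγ, hγ1, C + 20, by linarith, ?_⟩
  intro k _ _ _ H _ _ S ρ τ hρ hτ hyp f hf1 hf2 hf3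
  have key : ∀ F : {F : GL (Fin 2) k → ℂ //
      (∀ p g : GL (Fin 2) k, Matrix.GeneralLinearGroup.det p = 1 → F (p * g * p⁻¹) = F g) ∧
      (∀ c ∈ S.Z, ∀ g, F (Matrix.GeneralLinearGroup.scalar (Fin 2) c * g) = F g)},
      ∃ (Φ : k → kˣ → ℂ) (β σ : kˣ → ℂ),
      (∀ c ∈ S.Z, ∀ t D, Φ (c * t) (c ^ 2 * D) = Φ t D) ∧
      (∀ c ∈ S.Z, ∀ d, β (c * d) = β d) ∧ (∀ c ∈ S.Z, ∀ d, σ (c * d) = σ d) ∧
      (ringChar k = 2 → β = 0) ∧
      (Matrix.of fun x y : Cell S => F.1 (cellMat S x * (cellMat S y)⁻¹)) =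
        kerPhi S Φ + kerSg S β + kerSc S σ := fun F => cell_eq S F.1 F.2.1 F.2.2
  choose Φ β σ h1 h2 h3 h4 h5 using key
  let g : H → {F : GL (Fin 2) k → ℂ //
      (∀ p g : GL (Fin 2) k, Matrix.GeneralLinearGroup.det p = 1 → F (p * g * p⁻¹) = F g) ∧
      (∀ c ∈ S.Z, ∀ g, F (Matrix.GeneralLinearGroup.scalar (Fin 2) c * g) = F g)} :=
    fun u => ⟨f u, hf1 u, hf2 u⟩
  have hg : ∀ u v, g (v * u * v⁻¹) = g u := fun u v => Subtype.ext (hf3 u v)
  have e1 : (hmat fun u => Matrix.of fun x y : Cell S => f u (cellMat S x * (cellMat S y)⁻¹)) =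
      hmat (fun u => kerPhi S (Φ (g u))) + hmat (fun u => kerSg S (β (g u))) +
        hmat (fun u => kerSc S (σ (g u))) := by
    rw [← hmat_add, ← hmat_add]
    congr 1
    funext u
    exact h5 (g u)
  have hq1 : (1 : ℝ) ≤ Fintype.card k := by
    exact_mod_cast Fintype.card_pos
  have hB : 0 ≤ S.B := by
    unfold Setup.B Setup.m
    positivity
  have hH : (0 : ℝ) ≤ Nat.card H := Nat.cast_nonneg _
  have hBH : 0 ≤ S.B * Nat.card H := mul_nonneg hB hH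
  have hqγ : 0 ≤ (Fintype.card k : ℝ) ^ (-γ) := Real.rpow_nonneg (by linarith) _
  have hqδ : 1 ≤ (Fintype.card k : ℝ) ^ δ := Real.one_le_rpow hq1 hδ.le
  have hBρ : 0 ≤ S.B * Nat.card H * ρ := mul_nonneg hBH hρ
  have hBq : 0 ≤ S.B * Nat.card H * (Fintype.card k : ℝ) ^ (-γ) := mul_nonneg hBH hqγ
  have hτq : τ ≤ (Fintype.card k : ℝ) ^ δ * τ := le_mul_of_one_le_left hτ hqδ
  have hA := hP k H S ρ τ hρ hτ hyp (fun u => Φ (g u)) (fun u => h1 (g u))
    (fun u v => congrArg Φ (hg u v))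
  have hD := kerSc_h S hyp hρ hτ (fun u => σ (g u)) (fun u => h3 (g u))
    (fun u v => congrArg σ (hg u v))
  have hE : RDec (hmat (fun u => kerSg S (β (g u)))) (16 * S.B * Nat.card H * ρ) (4 * τ) := by
    by_cases hk : ringChar k = 2
    · have e2 : hmat (fun u => kerSg S (β (g u))) = 0 := by
        ext x y
        simp only [hmat, kerSg, Matrix.of_apply, h4 _ hk, Pi.zero_apply, zero_mul, ite_self,
          Finset.sum_const_zero, Matrix.zero_apply]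
      rw [e2]
      refine rdec_zero.mono ?_ (by positivity)
      have : 16 * S.B * Nat.card H * ρ = 16 * (S.B * Nat.card H * ρ) := by ring
      rw [this]
      positivity
    · exact kerSg_h hk S hyp hρ hτ (fun u => β (g u)) (fun u => h2 (g u))
        (fun u v => congrArg β (hg u v))
  rw [e1]
  refine ((hA.add hE).add hD).mono ?_ ?_
  · nlinarith
  · nlinarith

end MP0775d3.Sl2H
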