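import Pool.Agent.Lib.MP_0775d3_lc.Sl2H.Hmat
import Pool.Agent.Lib.MP_0775d3_lc.Sl2.LowM

/-! The low rank part with values in class functions of `H`. -/

set_option linter.unusedSectionVars false

namespace MP0775d3.Sl2H

open Matrix MP0775d3.Sl2

section
variable {k : Type} [Field k] [Fintype k] [DecidableEq k] {H : Type} [Group H] [Fintype H]
  {ρ τ : ℝ}

/-- the pairs with product zero -/
private abbrev ZP (k : Type) [Field k] : Type := {c : k × k // c.1 * c.2 = 0}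

private noncomputable def lowP (S : Setup k) (ψ : AddChar k ℂ) :
    Matrix (Cell S) (ZP k × (kˣ × {d : kˣ // d ∈ S.T})) ℂ :=
  Matrix.of fun x w => if x.2.2 = w.2 then ψ (-(w.1.1.1 * x.1 + w.1.1.2 * x.2.1)) else 0

private noncomputable def lowQ (S : Setup k) (ψ : AddChar k ℂ) (Φ : k → kˣ → ℂ) :
    Matrix (ZP k × (kˣ × {d : kˣ // d ∈ S.T})) (Cell S) ℂ :=
  Matrix.of fun w y => ψ (w.1.1.1 * y.1 + w.1.1.2 * y.2.1) *
      ∑ p : k, ∑ r : k, Φ ((((w.2.2.1 : k) * (w.2.1 : k) ^ 2 +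
        (y.2.2.2.1 : k) * (y.2.2.1 : k) ^ 2 - p * r) / ((w.2.1 : k) * (y.2.2.1 : k))) /
          (y.2.2.2.1 : k)) (w.2.2.1 / y.2.2.2.1) * ψ (w.1.1.1 * p + w.1.1.2 * r)

private theorem lowM_eq (S : Setup k) (ψ : AddChar k ℂ) (Φ : k → kˣ → ℂ) :
    lowM S ψ Φ = lowP S ψ * lowQ S ψ Φ := by
  ext x y
  rw [Matrix.mul_apply, Fintype.sum_prod_type]
  have h1 : ∀ c : ZP k, ∑ t : kˣ × {d : kˣ // d ∈ S.T},
      lowP S ψ x (c, t) * lowQ S ψ Φ (c, t) y =
      ψ (-(c.1.1 * (x.1 - y.1) + c.1.2 * (x.2.1 - y.2.1))) *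
      ∑ p : k, ∑ r : k, Φ ((((x.2.2.2.1 : k) * (x.2.2.1 : k) ^ 2 +
        (y.2.2.2.1 : k) * (y.2.2.1 : k) ^ 2 - p * r) / ((x.2.2.1 : k) * (y.2.2.1 : k))) /
          (y.2.2.2.1 : k)) (x.2.2.2.1 / y.2.2.2.1) * ψ (c.1.1 * p + c.1.2 * r) := by
    intro c
    rw [Finset.sum_eq_single x.2.2]
    · simp only [lowP, lowQ, Matrix.of_apply, if_true]
      rw [← mul_assoc, ← AddChar.map_add_eq_mul]
      congr 2
      ring
    · intro t _ ht
      simp only [lowP, Matrix.of_apply]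
      rw [if_neg (Ne.symm ht), zero_mul]
    · intro h
      exact absurd (Finset.mem_univ _) h
  rw [Finset.sum_congr rfl fun c _ => h1 c]
  rw [← Finset.sum_subtype (Finset.univ.filter fun c : k × k => c.1 * c.2 = 0) (by simp)
    (fun c : k × k => ψ (-(c.1 * (x.1 - y.1) + c.2 * (x.2.1 - y.2.1))) *
      ∑ p : k, ∑ r : k, Φ ((((x.2.2.2.1 : k) * (x.2.2.1 : k) ^ 2 +
        (y.2.2.2.1 : k) * (y.2.2.1 : k) ^ 2 - p * r) / ((x.2.2.1 : k) * (y.2.2.1 : k))) /
          (y.2.2.2.1 : k)) (x.2.2.2.1 / y.2.2.2.1) * ψ (c.1 * p + c.2 * r))]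
  rw [Finset.sum_filter, Fintype.sum_prod_type]
  simp only [lowM, Matrix.of_apply]

private theorem card_ZP : Fintype.card (ZP k) ≤ 2 * Fintype.card k := by
  have h : Function.Surjective (Sum.elim (fun a : k => (⟨(a, 0), mul_zero a⟩ : ZP k))
      (fun b : k => (⟨(0, b), zero_mul b⟩ : ZP k))) := by
    rintro ⟨⟨a, b⟩, hab⟩
    rcases mul_eq_zero.1 hab with h0 | h0
    · exact ⟨Sum.inr b, by simp only [Sum.elim_inr]; congr 2; exact h0.symm⟩
    · exact ⟨Sum.inl a, by simp only [Sum.elim_inl]; congr 2; exact h0.symm⟩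
  have h2 := Fintype.card_le_of_surjective _ h
  rw [Fintype.card_sum, ← two_mul] at h2
  exact h2

/-- PROOF. `lowM_eq` (private in `Sl2/LowM.lean`, copy it) and `hmat_factor`, the count of
`lowM_dec`. -/
theorem lowM_h (S : Setup k) (ψ : AddChar k ℂ) (Φ : H → k → kˣ → ℂ) :
    RDec (hmat fun u => lowM S ψ (Φ u))
      (2 * (Fintype.card k : ℝ) ^ 2 * S.T.card * Nat.card H) 0 := by
  have h0 : (hmat fun u => lowM S ψ (Φ u)) = hmat fun u => lowP S ψ * lowQ S ψ (Φ u) := by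
    congr 1
    funext u
    exact lowM_eq S ψ (Φ u)
  rw [h0]
  refine (hmat_factor (lowP S ψ) (fun u => lowQ S ψ (Φ u))).mono ?_ le_rfl
  have h1 : Fintype.card (ZP k × (kˣ × {d : kˣ // d ∈ S.T})) =
      Fintype.card (ZP k) * (Fintype.card kˣ * S.T.card) := by
    rw [Fintype.card_prod, Fintype.card_prod]
    congr 2
    exact Fintype.card_coe S.T
  have h2 : Fintype.card kˣ ≤ Fintype.card k :=
    Fintype.card_le_of_injective (fun u : kˣ => (u : k)) fun _ _ h => Units.ext h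
  have h3 : Fintype.card (ZP k × (kˣ × {d : kˣ // d ∈ S.T})) ≤
      2 * Fintype.card k ^ 2 * S.T.card := by
    rw [h1]
    calc Fintype.card (ZP k) * (Fintype.card kˣ * S.T.card)
        ≤ (2 * Fintype.card k) * (Fintype.card k * S.T.card) :=
          Nat.mul_le_mul card_ZP (Nat.mul_le_mul_right _ h2)
      _ = 2 * Fintype.card k ^ 2 * S.T.card := by ring
  have h4 : (Fintype.card (ZP k × (kˣ × {d : kˣ // d ∈ S.T})) : ℝ) ≤
      2 * (Fintype.card k : ℝ) ^ 2 * S.T.card := by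
    exact_mod_cast h3
  exact mul_le_mul_of_nonneg_right h4 (Nat.cast_nonneg _)

end

end MP0775d3.Sl2H
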