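import Pool.Agent.Lib.MP_0775d3_lc.Sl2H.TorCH
import Pool.Agent.Lib.MP_0775d3_lc.Sl2H.LowMH
import Pool.Agent.Lib.MP_0775d3_lc.Sl2.General

/-! The kernel of a function of the trace and the determinant with values in class functions
of `H`. -/

set_option linter.unusedSectionVars false

namespace MP0775d3.Sl2H

open Matrix MP0775d3.Sl2

/-- The contribution of one quadratic algebra. -/
private theorem torM_h (δ : ℝ) (hδ : 0 < δ) (hδ1 : δ ≤ 1) : ∃ γ : ℝ, 0 < γ ∧ γ ≤ 1 ∧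
    ∃ C : ℝ, 1 ≤ C ∧
    ∀ (k : Type) [Field k] [Fintype k] [DecidableEq k] (H : Type) [Group H] [Fintype H]
      (S : Setup k) (ρ τ : ℝ) (_ : 0 ≤ ρ) (_ : 0 ≤ τ) (_ : AbBound H (4 * S.B) ρ τ)
      (Q : QData k) (_ : ∀ t m : k, Q.cnt t m ≤ 2) (ψ : AddChar k ℂ)
      (Φ : H → k → kˣ → ℂ) (_ : ∀ u, ∀ c ∈ S.Z, ∀ t D, Φ u (c * t) (c ^ 2 * D) = Φ u t D)
      (_ : ∀ u v, Φ (v * u * v⁻¹) = Φ u),
      RDec (hmat fun u => torM S Q ψ (Φ u))
        (C * (S.B * Nat.card H * ((Fintype.card k : ℝ) ^ (-γ) + ρ)))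
        (C * ((Fintype.card k : ℝ) ^ δ * τ)) := by
  have h2 : 0 < δ / 2 := by linarith
  have h21 : δ / 2 ≤ 1 := by linarith
  obtain ⟨γa, ha0, ha1, Ca, hCa, hA⟩ := torA_dec (δ / 2) h2 h21
  obtain ⟨γb, hb0, hb1, Cb, hCb, hB⟩ := torB_dec (δ / 2) h2 h21
  refine ⟨min γa γb, lt_min ha0 hb0, (min_le_left _ _).trans ha1,
    Ca + Cb + 4 + 2 * (Ca * Cb), by nlinarith, ?_⟩
  intro k _ _ _ H _ _ S ρ τ hρ hτ hyp Q hcnt ψ Φ hΦ hc
  have hq2 : (2 : ℝ) ≤ Fintype.card k := two_le_q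
  have hq1 : (1 : ℝ) ≤ Fintype.card k := by linarith
  have hq0 : (0 : ℝ) < Fintype.card k := by linarith
  have hB0 : 0 ≤ S.B := le_trans (by positivity) (B_lower S)
  have hH0 : (0 : ℝ) ≤ Nat.card H := Nat.cast_nonneg _
  have hqd : 0 ≤ (Fintype.card k : ℝ) ^ (δ / 2) := Real.rpow_nonneg hq0.le _
  have hsa : 0 ≤ Ca * (Fintype.card k : ℝ) ^ (δ / 2) := mul_nonneg (by linarith) hqd
  have hsb : 0 ≤ Cb * (Fintype.card k : ℝ) ^ (δ / 2) := mul_nonneg (by linarith) hqd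
  have hdec := RDec.mul (mul_nonneg hsa (by linarith : (0 : ℝ) ≤ 2 * τ)) hsb
    (RDec.mul hsa (by linarith : (0 : ℝ) ≤ 2 * τ) (hone_rdec (H := H) (hA k S Q hcnt ψ) hsa)
      (torC_h S hyp hρ hτ Q Φ hΦ hc)) (hone_rdec (H := H) (hB k S Q hcnt ψ) hsb)
  have heq : (hmat fun u => torM S Q ψ (Φ u)) =
      hone H (torA S Q ψ) * hmat (fun u => torC S Q (Φ u)) * hone H (torB S Q ψ) := by
    rw [← hmat_mul]
    congr 1
    funext u
    exact torM_eq S Q ψ (Φ u)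
  rw [← heq] at hdec
  have hexp : ∀ γ' : ℝ, min γa γb ≤ γ' →
      (Fintype.card k : ℝ) ^ (-γ') ≤ (Fintype.card k : ℝ) ^ (-(min γa γb)) := fun γ' h =>
    Real.rpow_le_rpow_of_exponent_le hq1 (neg_le_neg h)
  have ea := hexp γa (min_le_left _ _)
  have eb := hexp γb (min_le_right _ _)
  set p : ℝ := (Fintype.card k : ℝ) ^ (-(min γa γb)) with hp
  have hp0 : 0 ≤ p := Real.rpow_nonneg hq0.le _
  have hBH : 0 ≤ S.B * Nat.card H := mul_nonneg hB0 hH0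
  have hBHp : 0 ≤ S.B * Nat.card H * p := mul_nonneg hBH hp0
  have hBHρ : 0 ≤ S.B * Nat.card H * ρ := mul_nonneg hBH hρ
  have hab : 1 ≤ Ca * Cb := one_le_mul_of_one_le_of_one_le hCa hCb
  refine hdec.mono ?_ ?_
  · have f1 : (Nat.card H : ℝ) * (Ca * (S.B * (Fintype.card k : ℝ) ^ (-γa))) ≤
        Ca * (S.B * Nat.card H * p) := by
      calc (Nat.card H : ℝ) * (Ca * (S.B * (Fintype.card k : ℝ) ^ (-γa)))
          = Ca * (S.B * Nat.card H * (Fintype.card k : ℝ) ^ (-γa)) := by ring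
        _ ≤ Ca * (S.B * Nat.card H * p) :=
          mul_le_mul_of_nonneg_left (mul_le_mul_of_nonneg_left ea hBH) (by linarith)
    have f2 : (Nat.card H : ℝ) * (Cb * (S.B * (Fintype.card k : ℝ) ^ (-γb))) ≤
        Cb * (S.B * Nat.card H * p) := by
      calc (Nat.card H : ℝ) * (Cb * (S.B * (Fintype.card k : ℝ) ^ (-γb)))
          = Cb * (S.B * Nat.card H * (Fintype.card k : ℝ) ^ (-γb)) := by ring
        _ ≤ Cb * (S.B * Nat.card H * p) :=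
          mul_le_mul_of_nonneg_left (mul_le_mul_of_nonneg_left eb hBH) (by linarith)
    have f3 : (Ca + Cb) * (S.B * Nat.card H * p) ≤
        (Ca + Cb + 4 + 2 * (Ca * Cb)) * (S.B * Nat.card H * p) :=
      mul_le_mul_of_nonneg_right (by linarith) hBHp
    have f4 : 4 * (S.B * Nat.card H * ρ) ≤
        (Ca + Cb + 4 + 2 * (Ca * Cb)) * (S.B * Nat.card H * ρ) :=
      mul_le_mul_of_nonneg_right (by linarith) hBHρ
    have f5 : (Ca + Cb + 4 + 2 * (Ca * Cb)) * (S.B * Nat.card H * (p + ρ)) =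
        (Ca + Cb + 4 + 2 * (Ca * Cb)) * (S.B * Nat.card H * p) +
          (Ca + Cb + 4 + 2 * (Ca * Cb)) * (S.B * Nat.card H * ρ) := by ring
    rw [f5]
    linarith
  · have hpow : (Fintype.card k : ℝ) ^ (δ / 2) * (Fintype.card k : ℝ) ^ (δ / 2) =
        (Fintype.card k : ℝ) ^ δ := by
      rw [← Real.rpow_add hq0]
      congr 1
      ring
    have hδq : 0 ≤ (Fintype.card k : ℝ) ^ δ * τ := mul_nonneg (Real.rpow_nonneg hq0.le _) hτ
    calc Ca * (Fintype.card k : ℝ) ^ (δ / 2) * (2 * τ) * (Cb * (Fintype.card k : ℝ) ^ (δ / 2))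
        = 2 * (Ca * Cb) * (((Fintype.card k : ℝ) ^ (δ / 2) *
            (Fintype.card k : ℝ) ^ (δ / 2)) * τ) := by ring
      _ = 2 * (Ca * Cb) * ((Fintype.card k : ℝ) ^ δ * τ) := by rw [hpow]
      _ ≤ (Ca + Cb + 4 + 2 * (Ca * Cb)) * ((Fintype.card k : ℝ) ^ δ * τ) :=
          mul_le_mul_of_nonneg_right (by linarith) hδq

/-- PROOF. `kerPhi_eq` for each `Φ u`, `torM_eq`, `hmat_mul`, `hone_rdec`, `torC_h`, `lowM_h`, and
`torA_dec`, `torB_dec` for `δ / 2`; the numerical part as in `torM_dec` and `kerPhi_dec`. -/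
theorem kerPhi_h (δ : ℝ) (hδ : 0 < δ) (hδ1 : δ ≤ 1) : ∃ γ : ℝ, 0 < γ ∧ γ ≤ 1 ∧ ∃ C : ℝ, 1 ≤ C ∧
    ∀ (k : Type) [Field k] [Fintype k] [DecidableEq k] (H : Type) [Group H] [Fintype H]
      (S : Setup k) (ρ τ : ℝ) (_ : 0 ≤ ρ) (_ : 0 ≤ τ) (_ : AbBound H (4 * S.B) ρ τ)
      (Φ : H → k → kˣ → ℂ) (_ : ∀ u, ∀ c ∈ S.Z, ∀ t D, Φ u (c * t) (c ^ 2 * D) = Φ u t D)
      (_ : ∀ u v, Φ (v * u * v⁻¹) = Φ u),
      RDec (hmat fun u => kerPhi S (Φ u))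
        (C * (S.B * Nat.card H * ((Fintype.card k : ℝ) ^ (-γ) + ρ)))
        (C * ((Fintype.card k : ℝ) ^ δ * τ)) := by
  obtain ⟨γ, h0, h1, C, hC, hT⟩ := torM_h δ hδ hδ1
  refine ⟨γ, h0, h1, 2 * C + 4, by linarith, ?_⟩
  intro k _ _ _ H _ _ S ρ τ hρ hτ hyp Φ hΦ hcl
  obtain ⟨ψ, hψ⟩ := exists_char k
  obtain ⟨Q, hc, hQ⟩ := exists_nonsplit k
  have hq2 : (2 : ℝ) ≤ Fintype.card k := two_le_q
  have hq1 : (1 : ℝ) ≤ Fintype.card k := by linarith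
  have hq0 : (0 : ℝ) < Fintype.card k := by linarith
  have hB0 : 0 ≤ S.B := le_trans (by positivity) (B_lower S)
  have hH0 : (0 : ℝ) ≤ Nat.card H := Nat.cast_nonneg _
  have hcs : ∀ t m : k, (splitQ k).cnt t m ≤ 2 := fun t m => by
    have := hc t m
    omega
  have hcq : ∀ t m : k, Q.cnt t m ≤ 2 := fun t m => by
    have := hc t m
    omega
  have hdec := (RDec.smul (lowM_h S ψ Φ) (((Fintype.card k : ℂ) ^ 2)⁻¹)).add
    ((RDec.smul (hT k H S ρ τ hρ hτ hyp (splitQ k) hcs ψ Φ hΦ hcl)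
        ((2 * (Fintype.card k : ℂ) ^ 2)⁻¹)).add
      (RDec.smul (hT k H S ρ τ hρ hτ hyp Q hcq ψ Φ hΦ hcl) (-(2 * (Fintype.card k : ℂ) ^ 2)⁻¹)))
  have heq : (hmat fun u => kerPhi S (Φ u)) =
      ((Fintype.card k : ℂ) ^ 2)⁻¹ • hmat (fun u => lowM S ψ (Φ u)) +
      ((2 * (Fintype.card k : ℂ) ^ 2)⁻¹ • hmat (fun u => torM S (splitQ k) ψ (Φ u)) +
        (-(2 * (Fintype.card k : ℂ) ^ 2)⁻¹) • hmat (fun u => torM S Q ψ (Φ u))) := by
    rw [← hmat_smul, ← hmat_smul, ← hmat_smul, ← hmat_add, ← hmat_add]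
    congr 1
    funext u
    exact kerPhi_eq S Q hc hQ ψ hψ (Φ u)
  rw [← heq] at hdec
  have hp0 : 0 ≤ (Fintype.card k : ℝ) ^ (-γ) := Real.rpow_nonneg hq0.le _
  refine hdec.mono ?_ ?_
  · have e1 : 2 * (Fintype.card k : ℝ) ^ 2 * S.T.card * Nat.card H ≤
        4 * (S.B * Nat.card H * (Fintype.card k : ℝ) ^ (-γ)) := by
      have e2 : (Fintype.card k : ℝ) ^ (-1 : ℝ) ≤ (Fintype.card k : ℝ) ^ (-γ) :=
        Real.rpow_le_rpow_of_exponent_le hq1 (neg_le_neg h1)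
      have e3 : S.B * (Fintype.card k : ℝ) ^ (-1 : ℝ) = (Fintype.card k : ℝ) ^ 2 * S.m := by
        rw [Real.rpow_neg_one, Setup.B]
        field_simp
      have e4 := card_T_le S
      have e5 : (Fintype.card k : ℝ) ^ 2 * S.m ≤ S.B * (Fintype.card k : ℝ) ^ (-γ) := by
        rw [← e3]
        exact mul_le_mul_of_nonneg_left e2 hB0
      have e6 : 2 * (Fintype.card k : ℝ) ^ 2 * S.T.card ≤
          2 * (Fintype.card k : ℝ) ^ 2 * (2 * S.m) :=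
        mul_le_mul_of_nonneg_left e4 (by positivity)
      calc 2 * (Fintype.card k : ℝ) ^ 2 * S.T.card * Nat.card H
          ≤ 4 * (S.B * (Fintype.card k : ℝ) ^ (-γ)) * Nat.card H :=
            mul_le_mul_of_nonneg_right (by linarith) hH0
        _ = 4 * (S.B * Nat.card H * (Fintype.card k : ℝ) ^ (-γ)) := by ring
    have e7 : 0 ≤ S.B * Nat.card H * ρ := mul_nonneg (mul_nonneg hB0 hH0) hρ
    have e8 : (2 * C + 4) * (S.B * Nat.card H * ((Fintype.card k : ℝ) ^ (-γ) + ρ)) =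
        2 * (C * (S.B * Nat.card H * ((Fintype.card k : ℝ) ^ (-γ) + ρ))) +
        (4 * (S.B * Nat.card H * (Fintype.card k : ℝ) ^ (-γ)) +
          4 * (S.B * Nat.card H * ρ)) := by ring
    rw [e8]
    linarith
  · have hδq : 0 ≤ (Fintype.card k : ℝ) ^ δ * τ := mul_nonneg (Real.rpow_nonneg hq0.le _) hτ
    linarith

end MP0775d3.Sl2H
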