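import Pool.Agent.Lib.MP_0775d3_lc.Sl2H.CellH
import Pool.Agent.Lib.MP_0775d3_lc.Sl2.SetupEx
import Pool.Agent.Lib.MP_0775d3_lc.Sl2.Final

/-! Peeling off a quotient by scalars. -/

set_option linter.unusedSectionVars false

namespace MP0775d3.Sl2H

open Matrix MP0775d3.Sl2

/-- Few elements of `G` are represented by upper triangular matrices. -/
private theorem peelScalar_ncard {k : Type} [Field k] [Fintype k] [DecidableEq k]
    {N : Subgroup (GL (Fin 2) k)} {G : Type} [Group G] [Fintype G] (φ : N →* G) (S : Setup k)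
    (r : G → N) (hr : ∀ g, φ (r g) = g)
    (hT : ∀ g, Matrix.GeneralLinearGroup.det (r g : GL (Fin 2) k) ∈ S.T) :
    (({g : G | ((r g : GL (Fin 2) k) : Matrix (Fin 2) (Fin 2) k) 1 0 ≠ 0}ᶜ : Set G).ncard : ℝ) ≤
      2 * (S.B * (Fintype.card k : ℝ)⁻¹) := by
  classical
  set P : Set G := {g : G | ((r g : GL (Fin 2) k) : Matrix (Fin 2) (Fin 2) k) 1 0 ≠ 0}ᶜ with hP
  have hmem : ∀ g : G, g ∈ P → ((r g : GL (Fin 2) k) : Matrix (Fin 2) (Fin 2) k) 1 0 = 0 := by
    intro g hg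
    rw [hP, Set.mem_compl_iff, Set.mem_ofPred_eq, not_not] at hg
    exact hg
  let c : P → k × k × {d : kˣ // d ∈ S.T} := fun g =>
    (((r g.1 : GL (Fin 2) k) : Matrix (Fin 2) (Fin 2) k) 0 0,
      ((r g.1 : GL (Fin 2) k) : Matrix (Fin 2) (Fin 2) k) 0 1, ⟨_, hT g.1⟩)
  have hc : Function.Injective c := by
    intro g g' h
    simp only [c, Prod.mk.injEq, Subtype.mk.injEq] at h
    obtain ⟨h1, h2, h3⟩ := h
    have h4 := hmem g.1 g.2
    have h5 := hmem g'.1 g'.2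
    have h6 : ∀ x : GL (Fin 2) k, (x : Matrix (Fin 2) (Fin 2) k) 1 0 = 0 →
        ((Matrix.GeneralLinearGroup.det x : kˣ) : k) =
          (x : Matrix (Fin 2) (Fin 2) k) 0 0 * (x : Matrix (Fin 2) (Fin 2) k) 1 1 := by
      intro x hx
      rw [Matrix.GeneralLinearGroup.val_det_apply, Matrix.det_fin_two, hx, mul_zero, sub_zero]
    have h7 : ((r g.1 : GL (Fin 2) k) : Matrix (Fin 2) (Fin 2) k) 1 1 =
        ((r g'.1 : GL (Fin 2) k) : Matrix (Fin 2) (Fin 2) k) 1 1 := by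
      have e1 := h6 _ h4
      have e2 := h6 _ h5
      have e3 : ((r g.1 : GL (Fin 2) k) : Matrix (Fin 2) (Fin 2) k) 0 0 ≠ 0 := by
        intro h0
        rw [h0, zero_mul] at e1
        exact (Matrix.GeneralLinearGroup.det (r g.1 : GL (Fin 2) k)).ne_zero e1
      have e4 : ((r g.1 : GL (Fin 2) k) : Matrix (Fin 2) (Fin 2) k) 0 0 *
          ((r g.1 : GL (Fin 2) k) : Matrix (Fin 2) (Fin 2) k) 1 1 =
          ((r g.1 : GL (Fin 2) k) : Matrix (Fin 2) (Fin 2) k) 0 0 *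
          ((r g'.1 : GL (Fin 2) k) : Matrix (Fin 2) (Fin 2) k) 1 1 := by
        rw [← e1, h3, e2, h1]
      exact mul_left_cancel₀ e3 e4
    have h8 : (r g.1 : GL (Fin 2) k) = (r g'.1 : GL (Fin 2) k) := by
      apply Matrix.GeneralLinearGroup.ext
      intro i j
      fin_cases i <;> fin_cases j
      · exact h1
      · exact h2
      · exact h4.trans h5.symm
      · exact h7
    have h9 : r g.1 = r g'.1 := Subtype.ext h8
    apply Subtype.ext
    rw [← hr g.1, h9, hr]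
  have h1 : P.ncard ≤ Fintype.card k * (Fintype.card k * S.T.card) := by
    rw [← Nat.card_coe_set_eq]
    refine (Nat.card_le_card_of_injective c hc).trans (le_of_eq ?_)
    rw [Nat.card_prod, Nat.card_prod, Nat.card_eq_fintype_card, Nat.card_eq_fintype_card,
      Fintype.card_coe]
  have h2 : (P.ncard : ℝ) ≤ Fintype.card k * (Fintype.card k * S.T.card) := by exact_mod_cast h1
  have hq : (0 : ℝ) < Fintype.card k := by linarith [two_le_q (k := k)]
  refine h2.trans ?_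
  have h3 := card_T_le S
  have h4 : S.B * (Fintype.card k : ℝ)⁻¹ = (Fintype.card k : ℝ) ^ 2 * S.m := by
    rw [Setup.B]
    field_simp
  rw [h4]
  calc (Fintype.card k : ℝ) * (Fintype.card k * S.T.card)
      ≤ (Fintype.card k : ℝ) * (Fintype.card k * (2 * S.m)) := by gcongr
    _ = 2 * ((Fintype.card k : ℝ) ^ 2 * S.m) := by ring

/-- The decomposition in terms of the number of elements of the field. -/
private theorem peelScalar_core {k : Type} [Field k] [Fintype k] [DecidableEq k]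
    {N : Subgroup (GL (Fin 2) k)}
    (hN : ∀ g : GL (Fin 2) k, Matrix.GeneralLinearGroup.det g = 1 → g ∈ N)
    {G : Type} [Group G] [Fintype G] (φ : N →* G) (S : Setup k)
    (r : G → N) (hr : ∀ g, φ (r g) = g)
    (hT : ∀ g, Matrix.GeneralLinearGroup.det (r g : GL (Fin 2) k) ∈ S.T)
    (hZ : ∀ c ∈ S.Z, ∃ h : Matrix.GeneralLinearGroup.scalar (Fin 2) c ∈ N,
        φ ⟨Matrix.GeneralLinearGroup.scalar (Fin 2) c, h⟩ = 1)
    {H : Type} [Group H] [Fintype H]
    (f : G × H → ℂ) (hf : IsClassFun f) {ρ σ : ℝ} (hσ : 0 ≤ σ)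
    (D0 : ∀ f' : H → GL (Fin 2) k → ℂ,
      (∀ u, ∀ p g : GL (Fin 2) k, Matrix.GeneralLinearGroup.det p = 1 →
        f' u (p * g * p⁻¹) = f' u g) →
      (∀ u, ∀ c ∈ S.Z, ∀ g, f' u (Matrix.GeneralLinearGroup.scalar (Fin 2) c * g) = f' u g) →
      (∀ u v, f' (v * u * v⁻¹) = f' u) →
      RDec (hmat fun u => Matrix.of fun x y : Cell S =>
        f' u (cellMat S x * (cellMat S y)⁻¹)) ρ σ) :
    RDec (groupMat f)
      (ρ + Nat.card H * (2 * (S.B * (Fintype.card k : ℝ)⁻¹)) +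
        Nat.card H * (2 * (S.B * (Fintype.card k : ℝ)⁻¹))) σ := by
  classical
  have hf1 : ∀ (g x : G) (u : H), f (g * x * g⁻¹, u) = f (x, u) := by
    intro g x u
    have h1 := hf (g, 1) (x, u)
    rw [← h1]
    congr 1
    ext
    · rfl
    · simp
  have hf2 : ∀ (x : G) (u v : H), f (x, v * u * v⁻¹) = f (x, u) := by
    intro x u v
    have h1 := hf (1, v) (x, u)
    rw [← h1]
    congr 1
    ext
    · simp
    · rfl
  set f' : H → GL (Fin 2) k → ℂ :=
    fun u g => if h : g ∈ N then f (φ ⟨g, h⟩, u) else 0 with hf'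
  have f'_mem : ∀ (u : H) (g : GL (Fin 2) k) (h : g ∈ N), f' u g = f (φ ⟨g, h⟩, u) := by
    intro u g h
    simp only [hf', dif_pos h]
  have f'_nmem : ∀ (u : H) (g : GL (Fin 2) k) (h : g ∉ N), f' u g = 0 := by
    intro u g h
    simp only [hf', dif_neg h]
  have hconj : ∀ u, ∀ p g : GL (Fin 2) k, Matrix.GeneralLinearGroup.det p = 1 →
      f' u (p * g * p⁻¹) = f' u g := by
    intro u p g hp
    have hpN := hN p hp
    by_cases hg : g ∈ N
    · have h1 : p * g * p⁻¹ ∈ N := N.mul_mem (N.mul_mem hpN hg) (N.inv_mem hpN)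
      rw [f'_mem u _ h1, f'_mem u _ hg]
      have h2 : (⟨p * g * p⁻¹, h1⟩ : N) = ⟨p, hpN⟩ * ⟨g, hg⟩ * (⟨p, hpN⟩ : N)⁻¹ := rfl
      rw [h2, map_mul, map_mul, map_inv, hf1]
    · have h1 : p * g * p⁻¹ ∉ N := by
        intro h
        apply hg
        have h2 := N.mul_mem (N.mul_mem (N.inv_mem hpN) h) hpN
        have h3 : p⁻¹ * (p * g * p⁻¹) * p = g := by group
        rwa [h3] at h2
      rw [f'_nmem u _ h1, f'_nmem u _ hg]
  have hsc : ∀ u, ∀ c ∈ S.Z, ∀ g,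
      f' u (Matrix.GeneralLinearGroup.scalar (Fin 2) c * g) = f' u g := by
    intro u c hc g
    obtain ⟨h, hφ⟩ := hZ c hc
    by_cases hg : g ∈ N
    · have h1 : Matrix.GeneralLinearGroup.scalar (Fin 2) c * g ∈ N := N.mul_mem h hg
      rw [f'_mem u _ h1, f'_mem u _ hg]
      have h2 : (⟨Matrix.GeneralLinearGroup.scalar (Fin 2) c * g, h1⟩ : N) =
        ⟨Matrix.GeneralLinearGroup.scalar (Fin 2) c, h⟩ * ⟨g, hg⟩ := rfl
      rw [h2, map_mul, hφ, one_mul]
    · have h1 : Matrix.GeneralLinearGroup.scalar (Fin 2) c * g ∉ N := by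
        intro h'
        apply hg
        have h2 := N.mul_mem (N.inv_mem h) h'
        rwa [inv_mul_cancel_left] at h2
      rw [f'_nmem u _ h1, f'_nmem u _ hg]
  have hcc : ∀ u v, f' (v * u * v⁻¹) = f' u := by
    intro u v
    funext g
    by_cases hg : g ∈ N
    · rw [f'_mem _ _ hg, f'_mem _ _ hg, hf2]
    · rw [f'_nmem _ _ hg, f'_nmem _ _ hg]
  have D := D0 f' hconj hsc hcc
  set P : Set G := {g : G | ((r g : GL (Fin 2) k) : Matrix (Fin 2) (Fin 2) k) 1 0 ≠ 0} with hP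
  have hcell : ∀ g : P, ∃ x : Cell S, cellMat S x = (r g.1 : GL (Fin 2) k) := by
    intro g
    obtain ⟨u, v, a, h⟩ := exists_mat (r g.1 : GL (Fin 2) k) g.2
    exact ⟨(u, v, a, ⟨_, hT g.1⟩), h.symm⟩
  choose c hc using hcell
  have hcinj : Function.Injective c := by
    intro g g' h
    have h1 : (r g.1 : GL (Fin 2) k) = (r g'.1 : GL (Fin 2) k) := by
      rw [← hc g, h, hc g']
    have h2 : r g.1 = r g'.1 := Subtype.ext h1
    apply Subtype.ext
    rw [← hr g.1, h2, hr]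
  have hfib : ∀ x : Cell S, (({g | c g = x} : Set P).ncard : ℝ) ≤ 1 := by
    intro x
    have h1 : ({g | c g = x} : Set P).Subsingleton := by
      intro g hg g' hg'
      exact hcinj (hg.trans hg'.symm)
    have h2 : ({g | c g = x} : Set P).ncard ≤ 1 := by
      rw [Set.ncard_le_one_iff_subsingleton]
      exact h1
    exact_mod_cast h2
  have D2 := hmat_submatrix D hσ zero_le_one c c hfib hfib
  rw [one_mul] at D2
  have heq : (fun u : H => (Matrix.of fun x y : Cell S =>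
      f' u (cellMat S x * (cellMat S y)⁻¹)).submatrix c c) =
      fun u : H => (Matrix.of fun x y : G => f (x * y⁻¹, u)).submatrix (Subtype.val : P → G)
        (Subtype.val : P → G) := by
    funext u
    ext x y
    rw [Matrix.submatrix_apply, Matrix.submatrix_apply, Matrix.of_apply, Matrix.of_apply, hc, hc]
    have h1 : (r x.1 : GL (Fin 2) k) * (r y.1 : GL (Fin 2) k)⁻¹ ∈ N :=
      N.mul_mem (r x.1).2 (N.inv_mem (r y.1).2)
    rw [f'_mem _ _ h1]
    have h2 : (⟨(r x.1 : GL (Fin 2) k) * (r y.1 : GL (Fin 2) k)⁻¹, h1⟩ : N) =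
      r x.1 * (r y.1)⁻¹ := rfl
    rw [h2, map_mul, map_inv, hr, hr]
  rw [heq] at D2
  have D3 := hmat_cut hσ P P D2
  have hn := peelScalar_ncard φ S r hr hT
  rw [← hP] at hn
  have hH0 : (0 : ℝ) ≤ Nat.card H := Nat.cast_nonneg _
  have hn' := mul_le_mul_of_nonneg_left hn hH0
  have hgm : groupMat f = hmat fun u : H => Matrix.of fun x y : G => f (x * y⁻¹, u) := by
    ext p q
    rfl
  rw [hgm]
  refine D3.mono ?_ le_rfl
  linarith

/-- PROOF. As `final_core` and `main_scalar` in `Sl2/Final.lean` (copy the private lemmas), with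
`cell_h`, `hmat_submatrix`, `hmat_cut`; `groupMat f` for `f` on `G × H` is
`hmat (fun u => Matrix.of fun x y => f (x * y⁻¹, u))`; `S.B ≤ 2 |G|`, so that `AbBound H (8 |G|)` implies
`AbBound H (4 S.B)`; `|G| ≤ q ^ 4`, so that `q ^ (-γ) ≤ |G| ^ (-γ / 4)`, and
`q ^ δ ≤ S.B ^ δ ≤ (2 |G|) ^ δ`. -/
theorem peel_scalar (δ : ℝ) (hδ : 0 < δ) (hδ1 : δ ≤ 1) : ∃ γ : ℝ, 0 < γ ∧ γ ≤ 1 ∧
    ∃ C : ℝ, 1 ≤ C ∧ ∀ (k : Type) [Field k] [Fintype k] [DecidableEq k]
      (N : Subgroup (GL (Fin 2) k))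
      (_ : ∀ g : GL (Fin 2) k, Matrix.GeneralLinearGroup.det g = 1 → g ∈ N)
      (G : Type) [Group G] [Finite G] (φ : N →* G) (_ : Function.Surjective φ)
      (_ : ∀ x : N, φ x = 1 → ∃ c : kˣ,
        (x : GL (Fin 2) k) = Matrix.GeneralLinearGroup.scalar (Fin 2) c)
      (H : Type) [Group H] [Finite H] (ρ τ : ℝ) (_ : 0 ≤ ρ) (_ : 0 ≤ τ)
      (_ : AbBound H (8 * Nat.card G) ρ τ),
      GBound (G × H) (C * (Nat.card G * Nat.card H * ((Nat.card G : ℝ) ^ (-γ) + ρ)))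
        (C * ((Nat.card G : ℝ) ^ δ * τ)) := by
  obtain ⟨γ', hγ', hγ1, C, hC, Hc⟩ := cell_h δ hδ hδ1
  refine ⟨γ' / 4, by positivity, by linarith, 2 * (C + 4), by linarith, ?_⟩
  intro k _ _ _ N hN G _ _ φ hφ hker H _ _ ρ τ hρ hτ hAb hFin f hf
  have : Fintype G := Fintype.ofFinite G
  have : Fintype H := Fintype.ofFinite H
  obtain rfl : hFin = instFintypeProd G H := Subsingleton.elim _ _
  obtain ⟨S, r, hr, hT, hZ, hB, hn4⟩ := exists_setup N hN φ hφ hker
  rw [← Nat.card_eq_fintype_card] at hB hn4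
  have hn1 : (1 : ℝ) ≤ Nat.card G := by exact_mod_cast Nat.card_pos
  have hn0 : (0 : ℝ) < Nat.card G := by linarith
  have hH0 : (0 : ℝ) ≤ Nat.card H := Nat.cast_nonneg _
  have hq2 := two_le_q (k := k)
  have hq0 : (0 : ℝ) < Fintype.card k := by linarith
  have hq1 : (1 : ℝ) ≤ Fintype.card k := by linarith
  have hqB := q_le_B S
  have hB0 : (0 : ℝ) ≤ S.B := by linarith
  have hAb' : AbBound H (4 * S.B) ρ τ := by
    intro E _ _ hE
    exact hAb E (hE.trans (by linarith))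
  set q : ℝ := (Fintype.card k : ℝ) with hq
  set n : ℝ := (Nat.card G : ℝ) with hnn
  set h : ℝ := (Nat.card H : ℝ) with hh
  have D := peelScalar_core hN φ S r hr hT hZ f hf (ρ := C * (S.B * h * (q ^ (-γ') + ρ)))
    (σ := C * (q ^ δ * τ)) (by positivity)
    (fun f' h1 h2 h3 => Hc k H S ρ τ hρ hτ hAb' f' h1 h2 h3)
  refine D.mono ?_ ?_
  · -- the rank
    have h1 : q⁻¹ ≤ q ^ (-γ') := by
      rw [← Real.rpow_neg_one]
      exact Real.rpow_le_rpow_of_exponent_le hq1 (by linarith)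
    have h4 : q ^ (-γ') ≤ n ^ (-(γ' / 4)) := by
      have h5 : n ^ (γ' / 4) ≤ (q ^ 4) ^ (γ' / 4) :=
        Real.rpow_le_rpow hn0.le hn4 (by positivity)
      have h6 : (q ^ 4) ^ (γ' / 4) = q ^ γ' := by
        rw [← Real.rpow_natCast, ← Real.rpow_mul hq0.le]
        congr 1
        push_cast
        ring
      rw [h6] at h5
      rw [Real.rpow_neg hq0.le, Real.rpow_neg hn0.le]
      exact inv_anti₀ (Real.rpow_pos_of_pos hn0 _) h5
    have h0 : 0 ≤ S.B * h := mul_nonneg hB0 hH0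
    have h2 : S.B * h * q⁻¹ ≤ S.B * h * (n ^ (-(γ' / 4)) + ρ) :=
      mul_le_mul_of_nonneg_left (by linarith) h0
    have h3 : S.B * h * (q ^ (-γ') + ρ) ≤ S.B * h * (n ^ (-(γ' / 4)) + ρ) :=
      mul_le_mul_of_nonneg_left (by linarith) h0
    have hpos : 0 ≤ n ^ (-(γ' / 4)) + ρ := add_nonneg (Real.rpow_nonneg hn0.le _) hρ
    have h5 : S.B * h * (n ^ (-(γ' / 4)) + ρ) ≤ 2 * n * h * (n ^ (-(γ' / 4)) + ρ) :=
      mul_le_mul_of_nonneg_right (mul_le_mul_of_nonneg_right hB hH0) hpos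
    calc C * (S.B * h * (q ^ (-γ') + ρ)) + h * (2 * (S.B * q⁻¹)) + h * (2 * (S.B * q⁻¹))
        = C * (S.B * h * (q ^ (-γ') + ρ)) + 4 * (S.B * h * q⁻¹) := by ring
      _ ≤ C * (S.B * h * (n ^ (-(γ' / 4)) + ρ)) + 4 * (S.B * h * (n ^ (-(γ' / 4)) + ρ)) := by
          have h6 := mul_le_mul_of_nonneg_left h3 (by linarith : (0 : ℝ) ≤ C)
          linarith
      _ = (C + 4) * (S.B * h * (n ^ (-(γ' / 4)) + ρ)) := by ring
      _ ≤ (C + 4) * (2 * n * h * (n ^ (-(γ' / 4)) + ρ)) :=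
          mul_le_mul_of_nonneg_left h5 (by linarith)
      _ = 2 * (C + 4) * (n * h * (n ^ (-(γ' / 4)) + ρ)) := by ring
  · -- the sparse part
    have h2 : q ^ δ ≤ (2 * n) ^ δ :=
      Real.rpow_le_rpow hq0.le (hqB.trans hB) hδ.le
    rw [Real.mul_rpow (by norm_num) hn0.le] at h2
    have h3 : (2 : ℝ) ^ δ ≤ 2 := by
      calc (2 : ℝ) ^ δ ≤ 2 ^ (1 : ℝ) :=
            Real.rpow_le_rpow_of_exponent_le (by norm_num) hδ1
        _ = 2 := Real.rpow_one 2
    have hnδ : 0 ≤ n ^ δ := Real.rpow_nonneg hn0.le _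
    have h4 : q ^ δ ≤ 2 * n ^ δ := h2.trans (mul_le_mul_of_nonneg_right h3 hnδ)
    have h5 : q ^ δ * τ ≤ 2 * n ^ δ * τ := mul_le_mul_of_nonneg_right h4 hτ
    have h6 : 0 ≤ n ^ δ * τ := mul_nonneg hnδ hτ
    calc C * (q ^ δ * τ) ≤ C * (2 * n ^ δ * τ) :=
          mul_le_mul_of_nonneg_left h5 (by linarith)
      _ = 2 * C * (n ^ δ * τ) := by ring
      _ ≤ 2 * (C + 4) * (n ^ δ * τ) := mul_le_mul_of_nonneg_right (by linarith) h6

end MP0775d3.Sl2H
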