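import Pool.Agent.Lib.MP_0775d3_lc.Sl2H.HGroup
import Pool.Agent.Lib.MP_0775d3_lc.Sl2.TorC

/-! The torus kernel with values in class functions of `H`. -/

set_option linter.unusedSectionVars false

namespace MP0775d3.Sl2H

open Matrix MP0775d3.Sl2

section
variable {k : Type} [Field k] [Fintype k] [DecidableEq k]

private theorem nm_alg (Q : QData k) (a : k) : Q.nm (Q.alg a) = a ^ 2 := by
  have h := Q.nm_lin a 0 1
  simpa using h

private theorem nontriv (Q : QData k) : Nontrivial Q.E := by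
  have h1 : 1 < Fintype.card k := Fintype.one_lt_card
  have h2 : 1 < Fintype.card Q.E := by
    rw [Q.card_E]
    nlinarith
  exact Fintype.one_lt_card_iff_nontrivial.mp h2

/-- the embedding of the group `Z` -/
private noncomputable def zHom (S : Setup k) (Q : QData k) : S.Z →* kˣ × S.H × Q.Eˣ where
  toFun c := (1, ⟨(c : kˣ) ^ 2, S.sq_mem c c.2⟩, Units.map (Q.alg : k →* Q.E) (c : kˣ))
  map_one' := by
    refine Prod.ext rfl (Prod.ext (Subtype.ext ?_) ?_)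
    · show ((1 : S.Z) : kˣ) ^ 2 = 1
      rw [Subgroup.coe_one, one_pow]
    · show Units.map (Q.alg : k →* Q.E) ((1 : S.Z) : kˣ) = 1
      rw [Subgroup.coe_one, map_one]
  map_mul' a b := by
    refine Prod.ext (mul_one 1).symm (Prod.ext (Subtype.ext ?_) ?_)
    · show ((a * b : S.Z) : kˣ) ^ 2 = (a : kˣ) ^ 2 * (b : kˣ) ^ 2
      rw [Subgroup.coe_mul, mul_pow]
    · show Units.map (Q.alg : k →* Q.E) ((a * b : S.Z) : kˣ) =
        Units.map (Q.alg : k →* Q.E) (a : kˣ) * Units.map (Q.alg : k →* Q.E) (b : kˣ)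
      rw [Subgroup.coe_mul, map_mul]

private theorem zHom_inj (S : Setup k) (Q : QData k) : Function.Injective (zHom S Q) := by
  have := nontriv Q
  intro a b h
  have h1 : Units.map (Q.alg : k →* Q.E) (a : kˣ) = Units.map (Q.alg : k →* Q.E) (b : kˣ) :=
    congrArg (fun z => z.2.2) h
  have h2 : Q.alg ((a : kˣ) : k) = Q.alg ((b : kˣ) : k) := congrArg (fun z : Q.Eˣ => (z : Q.E)) h1
  exact Subtype.ext (Units.ext (Q.alg.injective h2))

/-- the map of the index set into the group -/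
private def toΓ (S : Setup k) (Q : QData k) (z : Inner S Q) : kˣ × S.H × Q.Eˣ :=
  (z.1, ⟨z.2.1.1, S.T_sub z.2.1.1 z.2.1.2⟩, z.2.2)

/-- the function on the group -/
private noncomputable def hfun (S : Setup k) (Q : QData k) (Φ : k → kˣ → ℂ)
    (g : kˣ × S.H × Q.Eˣ) : ℂ :=
  if g.1 = 1 ∧ nmU Q g.2.2 = (g.2.1 : kˣ) then Φ (Q.tr (g.2.2 : Q.E)) (g.2.1 : kˣ) else 0

private theorem hfun_inv (S : Setup k) (Q : QData k) (Φ : k → kˣ → ℂ)
    (hΦ : ∀ c ∈ S.Z, ∀ t D, Φ (c * t) (c ^ 2 * D) = Φ t D) :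
    ∀ z ∈ (zHom S Q).range, ∀ g, hfun S Q Φ (z * g) = hfun S Q Φ g := by
  rintro _ ⟨c, rfl⟩ g
  have h1 : (zHom S Q c * g).1 = g.1 := one_mul _
  have h2 : (((zHom S Q c * g).2.1 : S.H) : kˣ) = (c : kˣ) ^ 2 * (g.2.1 : kˣ) := rfl
  have h3 : (((zHom S Q c * g).2.2 : Q.Eˣ) : Q.E) = Q.alg ((c : kˣ) : k) * (g.2.2 : Q.E) := rfl
  have h4 : nmU Q (zHom S Q c * g).2.2 = (c : kˣ) ^ 2 * nmU Q g.2.2 := by
    apply Units.ext
    show Q.nm (((zHom S Q c * g).2.2 : Q.Eˣ) : Q.E) = ((c : kˣ) : k) ^ 2 * Q.nm (g.2.2 : Q.E)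
    rw [h3, map_mul, nm_alg]
  have h5 : Q.tr (((zHom S Q c * g).2.2 : Q.Eˣ) : Q.E) = ((c : kˣ) : k) * Q.tr (g.2.2 : Q.E) := by
    rw [h3, Q.tr_mul]
  rw [hfun, hfun, h1, h2, h4, h5, hΦ (c : kˣ) c.2]
  simp only [mul_right_inj]

private theorem fibre (S : Setup k) (Q : QData k) (z₀ : Inner S Q) :
    (({z | toΓ S Q z * (toΓ S Q z₀)⁻¹ ∈ (zHom S Q).range} : Set (Inner S Q)).ncard : ℝ) ≤ 2 := by
  classical
  let A : Finset kˣ := Finset.univ.filter fun c : kˣ => c ^ 2 = 1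
  have hA : A.card ≤ 2 := sq_fibre 1 A fun c hc => (Finset.mem_filter.mp hc).2
  let F : kˣ → Inner S Q := fun c =>
    (z₀.1, z₀.2.1, Units.map (Q.alg : k →* Q.E) c * z₀.2.2)
  have hsub : ({z | toΓ S Q z * (toΓ S Q z₀)⁻¹ ∈ (zHom S Q).range} : Set (Inner S Q)) ⊆
      ((A.image F : Finset (Inner S Q)) : Set (Inner S Q)) := by
    rintro z ⟨c, hc⟩
    have h1 : z.1 = z₀.1 := by
      have : (1 : kˣ) = z.1 * z₀.1⁻¹ := congrArg (fun g => g.1) hc
      exact (mul_inv_eq_one.mp this.symm)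
    have h2 : (z.2.1.1 : kˣ) = (c : kˣ) ^ 2 * z₀.2.1.1 := by
      have : (c : kˣ) ^ 2 = z.2.1.1 * (z₀.2.1.1)⁻¹ :=
        congrArg (fun g : kˣ × S.H × Q.Eˣ => ((g.2.1 : S.H) : kˣ)) hc
      rw [this, inv_mul_cancel_right]
    have h3 : z.2.2 = Units.map (Q.alg : k →* Q.E) (c : kˣ) * z₀.2.2 := by
      have : Units.map (Q.alg : k →* Q.E) (c : kˣ) = z.2.2 * (z₀.2.2)⁻¹ :=
        congrArg (fun g : kˣ × S.H × Q.Eˣ => g.2.2) hc
      rw [this, inv_mul_cancel_right]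
    have h4 : z.2.1.1 = z₀.2.1.1 := S.T_inj _ z.2.1.2 _ z₀.2.1.2 c c.2 h2
    have h5 : (c : kˣ) ^ 2 = 1 := by
      rw [h4] at h2
      exact mul_eq_right.mp h2.symm
    rw [Finset.coe_image, Set.mem_image]
    refine ⟨(c : kˣ), ?_, ?_⟩
    · exact Finset.mem_coe.mpr (Finset.mem_filter.mpr ⟨Finset.mem_univ _, h5⟩)
    · exact Prod.ext h1.symm (Prod.ext (Subtype.ext h4.symm) h3.symm)
  have h6 := Set.ncard_le_ncard hsub (Finset.finite_toSet _)
  rw [Set.ncard_coe_finset] at h6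
  have h7 : (A.image F).card ≤ 2 := Finset.card_image_le.trans hA
  exact_mod_cast h6.trans h7

end

section
variable {k : Type} [Field k] [Fintype k] [DecidableEq k] {H : Type} [Group H] [Fintype H]
  {ρ τ : ℝ}

/-- PROOF. As `torC_dec` in `Sl2/TorC.lean` (make the private lemmas used there available by copying
them), with `hgroup` in place of `group_dec`: `h u = hfun S Q (Φ u)`. -/
theorem torC_h (S : Setup k) (hyp : AbBound H (4 * S.B) ρ τ) (hρ : 0 ≤ ρ) (hτ : 0 ≤ τ)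
    (Q : QData k) (Φ : H → k → kˣ → ℂ) (hΦ : ∀ u, ∀ c ∈ S.Z, ∀ t D, Φ u (c * t) (c ^ 2 * D) = Φ u t D)
    (hc : ∀ u v, Φ (v * u * v⁻¹) = Φ u) :
    RDec (hmat fun u => torC S Q (Φ u)) (4 * S.B * Nat.card H * ρ) (2 * τ) := by
  have hq := two_le_q (k := k)
  have hqB := q_le_B S
  have hB0 : (0 : ℝ) < S.B := by linarith
  have hq0 : (0 : ℝ) < Fintype.card k := by linarith
  have hgB : (Nat.card (kˣ × S.H × Q.Eˣ) : ℝ) / (Nat.card (zHom S Q).range : ℝ) ≤ 4 * S.B := by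
    set g : ℝ := (Nat.card (kˣ × S.H × Q.Eˣ) : ℝ) / (Nat.card (zHom S Q).range : ℝ) with hg
    have h1 : Nat.card (zHom S Q).range = Nat.card S.Z :=
      (Nat.card_congr (Equiv.ofInjective _ (zHom_inj S Q))).symm
    have h2 : Nat.card (kˣ × S.H × Q.Eˣ) = Nat.card kˣ * (Nat.card S.H * Nat.card Q.Eˣ) := by
      rw [Nat.card_prod, Nat.card_prod]
    have h3 : (Nat.card kˣ : ℝ) ≤ Fintype.card k := by
      have : Nat.card kˣ ≤ Fintype.card k := by rw [card_units]; omega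
      exact_mod_cast this
    have h4 : (Nat.card Q.Eˣ : ℝ) ≤ (Fintype.card k : ℝ) ^ 2 := by
      have h5 : Nat.card Q.Eˣ ≤ Nat.card Q.E :=
        Nat.card_le_card_of_injective (fun u : Q.Eˣ => (u : Q.E)) Units.val_injective
      rw [Nat.card_eq_fintype_card (α := Q.E), Q.card_E] at h5
      exact_mod_cast h5
    have hZ := card_pos_sub S.Z
    have hH := card_pos_sub S.H
    have h6 : g ≤ S.B := by
      rw [hg, h1, h2, Setup.B, Setup.m]
      push_cast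
      rw [← mul_div_assoc]
      apply div_le_div_of_nonneg_right _ hZ.le
      calc (Nat.card kˣ : ℝ) * ((Nat.card S.H : ℝ) * (Nat.card Q.Eˣ : ℝ)) ≤
          (Fintype.card k : ℝ) * ((Nat.card S.H : ℝ) * (Fintype.card k : ℝ) ^ 2) := by
            apply mul_le_mul h3 _ (by positivity) hq0.le
            exact mul_le_mul_of_nonneg_left h4 hH.le
        _ = (Fintype.card k : ℝ) ^ 3 * (Nat.card S.H : ℝ) := by ring
    linarith
  have key := hgroup hyp hρ hτ (kˣ × S.H × Q.Eˣ) (zHom S Q).range (fun u => hfun S Q (Φ u))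
    (fun u => hfun_inv S Q (Φ u) (hΦ u)) (fun u v => by simp only [hc u v]) hgB
    (Inner S Q) (Inner S Q) (toΓ S Q) (toΓ S Q) 2 (by norm_num) (fibre S Q) (fibre S Q)
  refine Eq.subst (motive := fun M => RDec M _ _) ?_ key
  congr 1
  funext u
  ext z w
  rw [torC, Matrix.of_apply, Matrix.of_apply]
  have h1 : (toΓ S Q z * (toΓ S Q w)⁻¹).1 = z.1 * w.1⁻¹ := rfl
  have h2 : (((toΓ S Q z * (toΓ S Q w)⁻¹).2.1 : S.H) : kˣ) = z.2.1.1 * (w.2.1.1)⁻¹ := rfl
  have h3 : (toΓ S Q z * (toΓ S Q w)⁻¹).2.2 = z.2.2 * (w.2.2)⁻¹ := rfl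
  rw [hfun, h1, h2, h3, ← div_eq_mul_inv, ← div_eq_mul_inv, ← div_eq_mul_inv]
  simp only [div_eq_one]

end

end MP0775d3.Sl2H
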